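import Pool.Agent.L0h56.HS.Fin
import Pool.Agent.Y920.ETC.Iter

set_option autoImplicit false

/-!
# Board HS: arbitrary `-1`
-/

namespace Pool.Agent.L0h56.HS

open Pool.Agent.H315R3.ETC Pool.Agent.TH673.VG Pool.Agent.Y920.ETC

/-- independent slots, any set of values -/
def S_INT : Prop := ∀ S : QData, IsQuat S → Finite S.G → ∀ N : ℕ, 2 ≤ N →
  (∀ a : S.G, a ≠ 1 → {b : S.G | S.q a b = S.zero}.ncard = N) →
  ∀ (a : S.G) (T : Set S.Q), a ≠ 1 → (∀ t ∈ T, t ≠ S.zero ∧ ∃ b, S.q a b = t) →
  (N - 1) * (N - 2) ^ 2 < 2 * T.ncard → ∃ t ∈ T, Indep S t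

/-- value groups of order at most two -/
theorem elem_small2 : ∀ (n : ℕ) (S : QData), IsQuat S → Finite S.G → Nat.card S.G ≤ n →
    (∀ a : S.G, a ≠ 1 → vs S a ≤ 2) → Elem S := by
  intro n
  induction n with
  | zero =>
    intro S h hf hc
    have : 0 < Nat.card S.G := Nat.card_pos
    omega
  | succ n ih =>
    intro S h hf hc hv
    by_cases hb : ∃ b, Bi S b
    · obtain ⟨b, hb⟩ := hb
      obtain ⟨T, hT, hTf, hTc, hTi, hTv⟩ := bi_ext h hb
      have hpos : 0 < Nat.card T.G := Nat.card_pos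
      exact Elem.iso _ _ (Elem.ext _ (ih T hT hTf (by omega) (hTv 2 hv))) hTi
    · push Not at hb
      have key : ∀ b : S.G, b ≠ 1 → b ≠ S.neg → Hr S b := by
        intro b hb1 hb2 e he
        by_contra hcon
        push Not at hcon
        have hne : (1 : S.G) ≠ S.neg * b := by
          intro h4
          apply hb2
          have h5 := congrArg (S.neg * ·) h4
          simp only [← mul_assoc, h.exp2, mul_one, one_mul] at h5
          exact h5.symm
        have h3 : ({1, S.neg * b, e} : Set S.G) ⊆ {x : S.G | S.q b x = S.zero} := by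
          rintro x (rfl | rfl | rfl)
          · exact one_mem_V h b
          · exact h.qs1 b
          · exact he
        have h4 := Set.ncard_le_ncard h3 (Set.toFinite _)
        have h5 : ({1, S.neg * b, e} : Set S.G).ncard = 3 := by
          rw [Set.ncard_eq_three]
          exact ⟨1, S.neg * b, e, hne, hcon.1.symm, hcon.2.symm, rfl⟩
        have h6 := hv b hb1
        unfold vs at h6
        omega
      have hall : ∀ b : S.G, b = 1 ∨ b = S.neg := by
        intro b
        by_contra hcon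
        push Not at hcon
        apply hb b
        refine ⟨hcon.1, hcon.2, key b hcon.1 hcon.2, key _ ?_ ?_⟩
        · intro h4
          apply hcon.2
          have h5 := congrArg (S.neg * ·) h4
          simp only [← mul_assoc, h.exp2, mul_one, one_mul] at h5
          exact h5
        · intro h4
          apply hcon.1
          have h5 := congrArg (S.neg * ·) h4
          simp only [← mul_assoc, h.exp2, one_mul] at h5
          exact h5
      refine elem_of_indexTwo h hf fun a x y => ?_
      rcases hall x with h1 | h1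
      · left; rw [h1]; exact one_mem_V h a
      · rcases hall y with h2 | h2
        · right; left; rw [h2]; exact one_mem_V h a
        · right; right
          rw [h1, h2, h.exp2]
          exact one_mem_V h a

theorem card_range {S : QData} (h : IsQuat S) (hf : Finite S.G) (a : S.G) :
    Nat.card S.G = (Set.range (S.q a)).ncard * {b : S.G | S.q a b = S.zero}.ncard := by
  classical
  have := Fintype.ofFinite S.G
  have h1 := Finset.card_eq_sum_card_image (S.q a) (Finset.univ : Finset S.G)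
  have h2 : ∀ t ∈ (Finset.univ : Finset S.G).image (S.q a),
      ((Finset.univ : Finset S.G).filter (fun x => S.q a x = t)).card =
        {b : S.G | S.q a b = S.zero}.ncard := by
    intro t ht
    obtain ⟨b, -, rfl⟩ := Finset.mem_image.1 ht
    rw [Set.ncard_eq_toFinset_card']
    refine Finset.card_bij (fun x _ => x * b) ?_ ?_ ?_
    · intro x hx
      rw [Finset.mem_filter] at hx
      rw [Set.mem_toFinset]
      exact (h.qs3 a x b).1 hx.2
    · intro x _ y _ hxy
      exact mul_right_cancel hxy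
    · intro y hy
      rw [Set.mem_toFinset] at hy
      refine ⟨y * b, ?_, ?_⟩
      · rw [Finset.mem_filter]
        refine ⟨Finset.mem_univ _, ?_⟩
        rw [h.qs3, mul_assoc, h.exp2, mul_one]
        exact hy
      · rw [mul_assoc, h.exp2, mul_one]
  rw [Finset.sum_congr rfl h2, Finset.sum_const, smul_eq_mul, Finset.card_univ] at h1
  rw [Nat.card_eq_fintype_card, h1]
  congr 1
  rw [← Set.ncard_coe_finset]
  congr 1
  ext t
  simp

/-- `|Q_a ∩ Q_c| ≤ |V(ac)|` -/
theorem card_inter {S : QData} (h : IsQuat S) (hf : Finite S.G) (a c : S.G) :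
    (Set.range (S.q a) ∩ Set.range (S.q c)).ncard ≤ {b : S.G | S.q (a * c) b = S.zero}.ncard := by
  have h1 : Set.range (S.q a) ∩ Set.range (S.q c) ⊆
      S.q a '' {b : S.G | S.q (a * c) b = S.zero} := by
    rintro t ⟨⟨b, hb⟩, ⟨d, hd⟩⟩
    obtain ⟨x, hx1, hx2⟩ := h.qs4 a b c d (hb.trans hd.symm)
    refine ⟨x, ?_, ?_⟩
    · show S.q (a * c) x = S.zero
      rw [h.qs2]
      refine (h.qs3 x a c).1 ?_
      rw [h.qs2 x a, h.qs2 x c, ← hx1, ← hx2, hb, hd]
    · rw [← hx1, hb]
  exact (Set.ncard_le_ncard h1 (Set.toFinite _)).trans (Set.ncard_image_le (Set.toFinite _))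

theorem q_self_neg {S : QData} (h : IsQuat S) (c : S.G) : S.q c c = S.q S.neg c := by
  rw [h.qs2 S.neg c]
  refine (h.qs3 c c S.neg).2 ?_
  rw [mul_comm]
  exact h.qs1 c

theorem part5 (h1 : S_EQO) (h2 : S_INT) (S : QData) (h : IsQuat S) (hf : Finite S.G) (N : ℕ)
    (hN : ∀ a : S.G, a ≠ 1 → {b : S.G | S.q a b = S.zero}.ncard = N) (hE : ¬ Elem S) :
    4 ≤ N ∧ N ^ 2 < Nat.card S.G ∧
      2 * Nat.card S.G ≤ N * ((N - 1) * (N - 2) ^ 2) + 2 * N ^ 2 := by
  obtain ⟨a₀, ha₀⟩ := exists_ne_one h hf hE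
  have hN3 : 3 ≤ N := by
    by_contra hcon
    exact hE (elem_small2 _ S h hf le_rfl fun a ha => by
      unfold vs
      rw [hN a ha]
      omega)
  have hN4 : 4 ≤ N := by
    obtain ⟨k, hk⟩ := card_pow h hf a₀
    rw [hN a₀ ha₀] at hk
    rw [hk] at hN3 ⊢
    have h3 : 1 < k := by
      by_contra hcon
      have h4 : k ≤ 1 := by omega
      have h5 : 2 ^ k ≤ 2 ^ 1 := Nat.pow_le_pow_right (by norm_num) h4
      omega
    calc 4 = 2 ^ 2 := by norm_num
      _ ≤ 2 ^ k := Nat.pow_le_pow_right (by norm_num) h3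
  have hNN : N ^ 2 < Nat.card S.G := by
    by_contra hcon
    exact hE (part1 h1 S h hf N hN (by omega)).2
  refine ⟨hN4, hNN, ?_⟩
  by_contra hcon
  rw [not_le] at hcon
  -- an element different from 1 and -1
  obtain ⟨a, ha1, han⟩ : ∃ a : S.G, a ≠ 1 ∧ a ≠ S.neg := by
    by_contra hc
    push Not at hc
    have h3 : (Set.univ : Set S.G) ⊆ {1, S.neg} := by
      intro x _
      by_cases hx : x = 1
      · exact Or.inl hx
      · exact Or.inr (hc x hx)
    have h4 := Set.ncard_le_ncard h3 (Set.toFinite _)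
    have h5 : ({1, S.neg} : Set S.G).ncard ≤ 2 :=
      (Set.ncard_insert_le _ _).trans (by rw [Set.ncard_singleton])
    rw [Set.ncard_univ] at h4
    nlinarith
  have hprod : a * S.neg ≠ 1 := by
    intro h4
    apply han
    have h5 := congrArg (· * S.neg) h4
    simp only [mul_assoc, h.exp2, mul_one, one_mul] at h5
    exact h5
  have hcr := card_range h hf a
  rw [hN a ha1] at hcr
  have hci := card_inter h hf a S.neg
  rw [hN _ hprod] at hci
  obtain ⟨T, hT⟩ : ∃ T : Set S.Q, T = Set.range (S.q a) \ Set.range (S.q S.neg) := ⟨_, rfl⟩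
  have hfr : (Set.range (S.q a)).Finite := Set.toFinite _
  have hTc : (Set.range (S.q a)).ncard ≤ T.ncard + N := by
    have h3 : Set.range (S.q a) = T ∪ (Set.range (S.q a) ∩ Set.range (S.q S.neg)) := by
      rw [hT]
      exact (Set.sdiff_union_inter _ _).symm
    have h4 := Set.ncard_union_le T (Set.range (S.q a) ∩ Set.range (S.q S.neg))
    rw [← h3] at h4
    omega
  obtain ⟨t, htT, hI⟩ := h2 S h hf N (by omega) hN a T ha1 (by
    intro t ht
    rw [hT] at ht
    refine ⟨?_, ht.1⟩
    rintro rfl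
    exact ht.2 ⟨1, one_mem_V h _⟩) (by
    by_contra hc
    rw [not_lt] at hc
    have h3 : 2 * (Set.range (S.q a)).ncard ≤ (N - 1) * (N - 2) ^ 2 + 2 * N := by omega
    have h4 := Nat.mul_le_mul_right N h3
    have h5 : 2 * (Set.range (S.q a)).ncard * N = 2 * Nat.card S.G := by rw [hcr]; ring
    have h6 : ((N - 1) * (N - 2) ^ 2 + 2 * N) * N = N * ((N - 1) * (N - 2) ^ 2) + 2 * N ^ 2 := by
      ring
    rw [h5, h6] at h4
    omega)
  rw [hT] at htT
  obtain ⟨⟨b, hb⟩, htn⟩ := htT
  have hl : ∀ c : S.G, S.q c c ≠ t := by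
    intro c hc
    apply htn
    exact ⟨c, by rw [← q_self_neg h]; exact hc⟩
  obtain ⟨w, hw⟩ := rigid_slots h hl hI
  have hab : a ≠ b := by
    rintro rfl
    exact hl a hb
  have ht0 : t ≠ S.zero := by
    rintro rfl
    exact htn ⟨1, one_mem_V h _⟩
  obtain ⟨v, hv1, hvw, x, hx⟩ : ∃ v : S.G, v ≠ 1 ∧ v ≠ w ∧ ∃ x, S.q v x = t := by
    by_cases haw : a = w
    · refine ⟨b, ?_, ?_, a, ?_⟩
      · rintro rfl
        exact ht0 (hb.symm.trans (one_mem_V h a))
      · rw [← haw]
        exact hab.symm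
      · rw [h.qs2]
        exact hb
    · exact ⟨a, ha1, haw, b, hb⟩
  have h3 : {e : S.G | S.q v e = S.zero} ⊆ {1, S.neg * v} := by
    intro e he
    exact hw v hvw ⟨x, hx⟩ e he
  have h5 := Set.ncard_le_ncard h3 (Set.toFinite _)
  have h6 : ({1, S.neg * v} : Set S.G).ncard ≤ 2 := (Set.ncard_insert_le _ _).trans (by
    rw [Set.ncard_singleton])
  rw [hN v hv1] at h5
  omega

end Pool.Agent.L0h56.HS
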