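import Pool.Agent.L0h56.HS.Stm2
import Pool.Agent.L0h85.HS.IND
import Pool.Agent.L0h56.HS.Fin2

/-!
# Board HS: the averaged double count (the proof of module IND by helper85, adapted)
-/

set_option autoImplicit false
set_option linter.unusedSectionVars false

namespace Pool.Agent.L0h56.HS

open Pool.Agent.H315R3.ETC Pool.Agent.L0h85.HS

theorem t_AVG : S_DSM → S_AVG := by
  intro hDSM S h hfin N hN2 hN hex e hed
  classical
  have : Fintype S.G := Fintype.ofFinite _
  obtain ⟨a, ha⟩ := hex
  have hv : ∀ a : S.G, a ≠ 1 → vv S a = N := fun a ha => by rw [← vv_eq]; exact hN a ha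
  -- DSM as a finite sum
  have hset : ∀ t : S.Q, {x : S.G | ∃ y, S.q x y = t} =
      ((Finset.univ.filter (fun x : S.G => ∃ y, S.q x y = t) : Finset S.G) : Set S.G) := by
    intro t
    ext x
    simp
  have dsm : ∀ (t : S.Q) (a b : S.G), t ≠ S.zero → S.q a b = t →
      ∑ x ∈ Finset.univ.filter (fun x : S.G => ∃ y, S.q x y = t), w S a x = N ^ 2 := by
    intro t a b ht hab
    rw [← hDSM S h hfin N hN t a b ht hab, hset, finsum_mem_coe_finset]
    exact Finset.sum_congr rfl fun x _ => (w_eq a x).symm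
  -- step A
  have stepA : ∀ b : S.G, S.q a b ≠ S.zero →
      e ≤ ∑ x ∈ (Finset.univ.filter (fun x : S.G => ∃ y, S.q x y = S.q a b)).erase a, (w S a x - 1) := by
    intro b hab
    set Dt := Finset.univ.filter (fun x : S.G => ∃ y, S.q x y = S.q a b) with hDt
    have haD : a ∈ Dt := by
      rw [hDt, Finset.mem_filter]
      exact ⟨Finset.mem_univ _, b, rfl⟩
    have s1 := dsm (S.q a b) a b hab rfl
    have s0 := hed (S.q a b) a b hab rfl
    rw [hset, Set.ncard_coe_finset, ← hDt] at s0
    rw [← hDt, ← Finset.add_sum_erase _ _ haD, w_self, hv a ha] at s1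
    have s2 : ∑ x ∈ Dt.erase a, w S a x = ∑ x ∈ Dt.erase a, (w S a x - 1) + (Dt.erase a).card := by
      rw [Finset.card_eq_sum_ones, ← Finset.sum_add_distrib]
      refine Finset.sum_congr rfl fun x _ => ?_
      have := w_pos h a x
      omega
    rw [Finset.card_erase_of_mem haD] at s2
    have s5 : 0 < Dt.card := Finset.card_pos.2 ⟨a, haD⟩
    omega
  set E : Finset S.G := (Finset.univ.erase 1).erase a with hE
  have haE : a ∈ Finset.univ.erase (1 : S.G) := by simp [ha]
  have hEm : ∀ x, x ∈ E ↔ x ≠ a ∧ x ≠ 1 := by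
    intro x
    rw [hE, Finset.mem_erase, Finset.mem_erase]
    simp
  have c1 := sum_w h hv ha
  rw [← Finset.add_sum_erase _ _ (Finset.mem_univ (1 : S.G)), ← Finset.add_sum_erase _ _ haE,
    w_self, w_right h, hv a ha, ← hE] at c1
  have c2 : ∑ x ∈ E, w S a x = ∑ x ∈ E, (w S a x - 1) + E.card := by
    rw [Finset.card_eq_sum_ones, ← Finset.sum_add_distrib]
    refine Finset.sum_congr rfl fun x _ => ?_
    have := w_pos h a x
    omega
  have c3 : E.card + 2 = Fintype.card S.G := by
    rw [hE, Finset.card_erase_of_mem haE, Finset.card_erase_of_mem (Finset.mem_univ _),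
      Finset.card_univ]
    have h1 : 0 < (Finset.univ.erase (1 : S.G)).card := Finset.card_pos.2 ⟨a, haE⟩
    rw [Finset.card_erase_of_mem (Finset.mem_univ _), Finset.card_univ] at h1
    omega
  -- the double count
  set F := Finset.univ.filter (fun b : S.G => ¬ S.q a b = S.zero) with hF
  have c4 : F.card + N = Fintype.card S.G := by
    have h3 := Finset.card_filter_add_card_filter_not (s := (Finset.univ : Finset S.G))
      (fun b : S.G => S.q a b = S.zero)
    have h4 := hv a ha
    unfold vv at h4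
    rw [h4, Finset.card_univ] at h3
    rw [hF]
    omega
  have c5 : F.card * e ≤ ∑ b ∈ F, ∑ x ∈ E, (if (∃ y, S.q x y = S.q a b) then w S a x - 1 else 0) := by
    rw [← smul_eq_mul, ← Finset.sum_const]
    refine Finset.sum_le_sum fun b hb => ?_
    have hb' : S.q a b ≠ S.zero := (Finset.mem_filter.1 hb).2
    refine (stepA b hb').trans ?_
    rw [← Finset.sum_filter]
    refine Finset.sum_le_sum_of_subset ?_
    intro x hx
    rw [Finset.mem_erase, Finset.mem_filter] at hx
    rw [Finset.mem_filter, hEm]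
    refine ⟨⟨hx.1, ?_⟩, hx.2.2⟩
    rintro rfl
    obtain ⟨y, hy⟩ := hx.2.2
    rw [q1 h] at hy
    exact hb' hy.symm
  rw [Finset.sum_comm] at c5
  have c6 : ∀ x ∈ E, 2 * ∑ b ∈ F, (if (∃ y, S.q x y = S.q a b) then w S a x - 1 else 0) ≤
      (N * (N - 2)) * (w S a x - 1) := by
    intro x hx
    rw [hEm] at hx
    rw [← Finset.sum_filter, Finset.sum_const, smul_eq_mul]
    have h1 := bb_mul h hv ha hx.1
    -- the size of the set
    have h2 : (F.filter fun b => ∃ y, S.q x y = S.q a b).card + N ≤ bb S a x := by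
      have h3 := Finset.card_filter_add_card_filter_not
        (s := Finset.univ.filter fun b : S.G => ∃ y, S.q x y = S.q a b)
        (fun b : S.G => S.q a b = S.zero)
      have e1 : (Finset.univ.filter fun b : S.G => ∃ y, S.q x y = S.q a b).filter
          (fun b : S.G => S.q a b = S.zero) = Finset.univ.filter (fun b : S.G => S.q a b = S.zero) := by
        ext b
        simp only [Finset.mem_filter, Finset.mem_univ, true_and]
        refine ⟨fun h => h.2, fun hb => ⟨⟨1, ?_⟩, hb⟩⟩
        rw [q_one h, hb]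
      have e2 : (Finset.univ.filter fun b : S.G => ∃ y, S.q x y = S.q a b).filter
          (fun b : S.G => ¬ S.q a b = S.zero) ⊇ F.filter fun b => ∃ y, S.q x y = S.q a b := by
        intro b hb
        simp only [hF, Finset.mem_filter, Finset.mem_univ, true_and] at hb ⊢
        exact ⟨hb.2, hb.1⟩
      have e3 := Finset.card_le_card e2
      rw [e1] at h3
      have h4 := hv a ha
      unfold vv at h4
      rw [h4] at h3
      unfold bb
      omega
    have h5 := w_pos h a x
    obtain ⟨n, rfl⟩ : ∃ n, N = n + 2 := ⟨N - 2, by omega⟩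
    rw [Nat.add_sub_cancel]
    rcases Nat.eq_or_lt_of_le h5 with h6 | h6
    · rw [← h6]
      simp
    · obtain ⟨k, hk⟩ : ∃ k, w S a x = k + 2 := ⟨w S a x - 2, by omega⟩
      rw [hk] at h1 ⊢
      set β := (F.filter fun b => ∃ y, S.q x y = S.q a b).card with hβ
      have h7 : 2 * β ≤ (n + 2) * n := by
        have h8 : (β + (n + 2)) * (k + 2) ≤ (n + 2) * (n + 2) := by
          rw [← h1]
          exact Nat.mul_le_mul_right _ h2
        nlinarith [Nat.zero_le (k * (β + (n + 2)))]
      have e : k + 2 - 1 = k + 1 := rfl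
      rw [e]
      nlinarith [Nat.mul_le_mul_right (k + 1) h7]
  have c7 : 2 * (F.card * e) ≤ (N * (N - 2)) * ∑ x ∈ E, (w S a x - 1) := by
    calc 2 * (F.card * e) ≤ 2 * ∑ x ∈ E, ∑ b ∈ F, (if (∃ y, S.q x y = S.q a b) then w S a x - 1 else 0) := by
          omega
      _ = ∑ x ∈ E, 2 * ∑ b ∈ F, (if (∃ y, S.q x y = S.q a b) then w S a x - 1 else 0) :=
          Finset.mul_sum _ _ _
      _ ≤ ∑ x ∈ E, (N * (N - 2)) * (w S a x - 1) := Finset.sum_le_sum c6
      _ = _ := (Finset.mul_sum _ _ _).symm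
  obtain ⟨n, rfl⟩ : ∃ n, N = n + 2 := ⟨N - 2, by omega⟩
  have e1 : n + 2 - 1 = n + 1 := rfl
  have e2 : n + 2 - 2 = n := rfl
  rw [e1] at c1 ⊢
  rw [e2] at c7 ⊢
  have c8 : ∑ x ∈ E, (w S a x - 1) = (n + 1) * n := by nlinarith
  rw [c8] at c7
  rw [Nat.card_eq_fintype_card, ← c4]
  calc 2 * (F.card + (n + 2)) * e = 2 * (F.card * e) + 2 * (n + 2) * e := by ring
    _ ≤ (n + 2) * n * ((n + 1) * n) + 2 * (n + 2) * e := Nat.add_le_add_right c7 _
    _ = _ := by ring

end Pool.Agent.L0h56.HS
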