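import Pool.Agent.L0h56.HS.Rad

/-!
# Board HS: birigid elements are allowed
-/

set_option autoImplicit false

namespace Pool.Agent.L0h56.HS

open Pool.Agent.H315R3.ETC Pool.Agent.Y920.ETC Pool.Agent.L0h85.HS

/-- all value groups have order `N` or `|G|`, except those of birigid elements -/
theorem part11 (hE : S_EQO) (hD : S_DSM) : ∀ (n : ℕ) (S : QData), IsQuat S → Finite S.G →
    Nat.card S.G ≤ n → ∀ N : ℕ,
    (∀ a : S.G, (∀ b, S.q a b = S.zero) ∨ {b : S.G | S.q a b = S.zero}.ncard = N ∨ Bi S a) →
    Elem S := by
  intro n
  induction n with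
  | zero =>
    intro S h hf hc
    have : 0 < Nat.card S.G := Nat.card_pos
    omega
  | succ n ih =>
    intro S h hf hc N hN
    by_cases hb : ∃ b, Bi S b
    · obtain ⟨b, hb⟩ := hb
      obtain ⟨B, hB⟩ := Pool.Agent.Y67.ET.t_BASIC S h
      have hbB : b ∉ B := fun hc => (hB b).1 hc hb
      obtain ⟨K, hBK, hbK, hK⟩ := split h.exp2 B b hbB
      have hneg : S.neg ∈ K := hBK ((hB _).2 fun hb => hb.2.1 rfl)
      have hout : ∀ a : S.G, a ∉ K → Bi S a := fun a ha => by
        by_contra hc
        exact ha (hBK ((hB a).2 hc))
      obtain ⟨h1, h2⟩ := Pool.Agent.Y781.ET.t_EXT S h K b hneg hbK hK hout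
      have hcard := card_two h K b hbK hK
      have hpos : 0 < Nat.card K := Nat.card_pos
      refine Elem.iso _ _ (Elem.ext _ (ih (restrN S K hneg) h1 (inferInstanceAs (Finite K)) ?_ N
        ?_)) h2
      · show Nat.card K ≤ n
        omega
      · intro (a : K)
        by_cases ha : a = 1
        · left
          intro (c : K)
          subst ha
          show S.q ((1 : K) : S.G) c.1 = S.zero
          rw [Subgroup.coe_one]
          exact q1 h _
        · rcases hN a.1 with h3 | h3 | h3
          · exact Or.inl fun c => h3 _
          · right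
            left
            have h4 := vs_restrN h K hneg hout a ha
            unfold vs at h4
            rw [h4]
            exact h3
          · right
            right
            obtain ⟨b1, b2, b3, b4⟩ := h3
            refine ⟨ha, fun e => b2 (congrArg Subtype.val e), ?_, ?_⟩
            · intro e he
              rcases b3 _ he with h5 | h5
              · exact Or.inl (Subtype.ext h5)
              · exact Or.inr (Subtype.ext h5)
            · intro e he
              rcases b4 _ he with h5 | h5
              · exact Or.inl (Subtype.ext h5)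
              · exact Or.inr (Subtype.ext h5)
    · push Not at hb
      refine part9 hE hD _ S h hf le_rfl N fun a => ?_
      rcases hN a with h3 | h3 | h3
      · exact Or.inl h3
      · exact Or.inr h3
      · exact absurd h3 (hb a)

/-- the form with `-1 = 1`: the orders of the value groups take at most the values `2`, `N`, `|G|` -/
theorem part12 (hE : S_EQO) (hD : S_DSM) (S : QData) (h : IsQuat S) (hf : Finite S.G)
    (hn : S.neg = 1) (N : ℕ)
    (hN : ∀ a : S.G, (∀ b, S.q a b = S.zero) ∨ {b : S.G | S.q a b = S.zero}.ncard = N ∨
      {b : S.G | S.q a b = S.zero}.ncard ≤ 2) : Elem S := by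
  refine part11 hE hD _ S h hf le_rfl N fun a => ?_
  rcases hN a with h3 | h3 | h3
  · exact Or.inl h3
  · exact Or.inr (Or.inl h3)
  · by_cases ha : a = 1
    · left
      rw [ha]
      exact q1 h
    · right
      right
      have hr : Hr S a := by
        intro e he
        by_contra hcon
        push Not at hcon
        rw [hn, one_mul] at hcon
        have h4 : ({1, a, e} : Set S.G) ⊆ {b : S.G | S.q a b = S.zero} := by
          rintro x (rfl | rfl | rfl)
          · exact one_mem_V h a
          · have := h.qs1 x
            rw [hn, one_mul] at this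
            exact this
          · exact he
        have h5 := Set.ncard_le_ncard h4 (Set.toFinite _)
        have h6 : ({1, a, e} : Set S.G).ncard = 3 := by
          rw [Set.ncard_eq_three]
          exact ⟨1, a, e, Ne.symm ha, hcon.1.symm, hcon.2.symm, rfl⟩
        omega
      refine ⟨ha, by rw [hn]; exact ha, hr, ?_⟩
      rw [hn, one_mul]
      exact hr

/-- transitive automorphisms and equal orders, on a set of elements -/
theorem part13 (S : QData) (hf : Finite S.G) (P : S.G → Prop)
    (ht : ∀ a b : S.G, P a → P b → ∃ α : S.G ≃* S.G,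
      (∀ x y, S.q x y = S.zero → S.q (α x) (α y) = S.zero) ∧ α a = b) :
    ∃ N : ℕ, ∀ a : S.G, P a → {b : S.G | S.q a b = S.zero}.ncard = N := by
  by_cases hne : ∃ a, P a
  · obtain ⟨a₀, h₀⟩ := hne
    have hle : ∀ a b : S.G, P a → P b →
        {x : S.G | S.q a x = S.zero}.ncard ≤ {x : S.G | S.q b x = S.zero}.ncard := by
      intro a b ha hb
      obtain ⟨α, hα, rfl⟩ := ht a b ha hb
      exact Set.ncard_le_ncard_of_injOn α (fun x hx => hα a x hx) (α.injective.injOn) (Set.toFinite _)
    exact ⟨{x : S.G | S.q a₀ x = S.zero}.ncard, fun a ha => le_antisymm (hle _ _ ha h₀)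
      (hle _ _ h₀ ha)⟩
  · push Not at hne
    exact ⟨0, fun a ha => absurd ha (hne a)⟩

end Pool.Agent.L0h56.HS
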