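import Pool.Agent.L0h56.HS.Stm
import Pool.Agent.TH673.VG.Crit

set_option autoImplicit false

/-!
# Board HS: assembly
-/

namespace Pool.Agent.L0h56.HS

open Pool.Agent.H315R3.ETC Pool.Agent.TH673.VG

/-- if all value groups have index at most two then the structure is of elementary type -/
theorem elem_of_indexTwo {S : QData} (h : IsQuat S) (hf : Finite S.G) (hi : ∀ a, IndexTwo S a) :
    Elem S := by
  refine elem_of_step h fun H hH hI => ?_
  exact absurd (eq_top_iff.2 fun a _ => hI a (hi a)) hH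

theorem coe_D {S : QData} (h : IsQuat S) (a : S.G) :
    ((D h a : Subgroup S.G) : Set S.G) = {b : S.G | S.q a b = S.zero} := rfl

theorem ncard_D {S : QData} (h : IsQuat S) (a : S.G) :
    {b : S.G | S.q a b = S.zero}.ncard = Nat.card (D h a) := by
  rw [← coe_D h a, ← Nat.card_coe_set_eq]
  rfl

/-- `|G| ≤ 2 |V(a)|` -/
theorem indexTwo_of_card {S : QData} (h : IsQuat S) (hf : Finite S.G) (a : S.G)
    (hc : Nat.card S.G ≤ 2 * {b : S.G | S.q a b = S.zero}.ncard) : IndexTwo S a := by
  rw [ncard_D h a] at hc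
  have h1 := (D h a).card_mul_index
  have hpos : 0 < Nat.card (D h a) := Nat.card_pos
  have hidx : (D h a).index ≤ 2 := by
    rw [← h1, mul_comm] at hc
    exact Nat.le_of_mul_le_mul_right hc hpos
  have hne : (D h a).index ≠ 0 := by
    intro h0
    rw [h0, mul_zero] at h1
    have : 0 < Nat.card S.G := Nat.card_pos
    omega
  intro x y
  by_contra hcon
  push Not at hcon
  obtain ⟨hx, hy, hxy⟩ := hcon
  rcases (by omega : (D h a).index = 1 ∨ (D h a).index = 2) with h2 | h2
  · rw [Subgroup.index_eq_one] at h2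
    apply hx
    have : x ∈ D h a := by rw [h2]; exact Subgroup.mem_top x
    exact this
  · have h3 := Subgroup.mul_mem_iff_of_index_two h2 (a := x) (b := y)
    apply hxy
    have : x * y ∈ D h a := by
      rw [h3]
      constructor
      · intro h4
        exact absurd h4 hx
      · intro h4
        exact absurd h4 hy
    exact this

theorem one_mem_V {S : QData} (h : IsQuat S) (a : S.G) : S.q a 1 = S.zero := (D h a).one_mem

/-- the order of a value group is a power of two -/
theorem card_pow {S : QData} (h : IsQuat S) (hf : Finite S.G) (a : S.G) :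
    ∃ k : ℕ, {b : S.G | S.q a b = S.zero}.ncard = 2 ^ k := by
  rw [ncard_D h a]
  have hp : IsPGroup 2 (D h a) := by
    intro x
    refine ⟨1, ?_⟩
    rw [pow_one, sq]
    exact Subtype.ext (h.exp2 x.1)
  have : Fact (Nat.Prime 2) := ⟨Nat.prime_two⟩
  exact hp.exists_card_eq

theorem part1 (h1 : S_EQO) (S : QData) (h : IsQuat S) (hf : Finite S.G) (N : ℕ)
    (hN : ∀ a : S.G, a ≠ 1 → {b : S.G | S.q a b = S.zero}.ncard = N)
    (hc : Nat.card S.G ≤ N ^ 2) : Nat.card S.G ≤ 2 * N ∧ Elem S := by
  have h2 := h1 S h hf N hN hc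
  refine ⟨h2, elem_of_indexTwo h hf fun a => ?_⟩
  by_cases ha : a = 1
  · subst ha
    intro x y
    left
    rw [h.qs2]
    exact one_mem_V h x
  · refine indexTwo_of_card h hf a ?_
    rw [hN a ha]
    exact h2

theorem exists_ne_one {S : QData} (h : IsQuat S) (hf : Finite S.G) (hE : ¬ Elem S) :
    ∃ a : S.G, a ≠ 1 := by
  by_contra hcon
  push Not at hcon
  apply hE
  refine elem_of_indexTwo h hf fun a x y => ?_
  left
  rw [hcon x]
  exact one_mem_V h a

theorem part2 (h1 : S_EQO) (h2 : S_IND) (S : QData) (h : IsQuat S) (hf : Finite S.G)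
    (hn : S.neg = 1) (N : ℕ)
    (hN : ∀ a : S.G, a ≠ 1 → {b : S.G | S.q a b = S.zero}.ncard = N) (hE : ¬ Elem S) :
    8 ≤ N ∧ N ^ 2 < Nat.card S.G ∧
      2 * Nat.card S.G ≤ N * ((N - 1) * (N - 2) ^ 2) + 2 * N := by
  obtain ⟨a, ha⟩ := exists_ne_one h hf hE
  have hN4 : 4 < N := by
    by_contra hcon
    exact hE (main S h hf hn (trans_of_small h hn hf fun a ha => by
      rw [hN a ha]
      omega))
  have hN8 : 8 ≤ N := by
    obtain ⟨k, hk⟩ := card_pow h hf a
    rw [hN a ha] at hk
    rw [hk] at hN4 ⊢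
    have h3 : 2 < k := by
      by_contra hcon
      have h4 : k ≤ 2 := by omega
      have h5 : 2 ^ k ≤ 2 ^ 2 := Nat.pow_le_pow_right (by norm_num) h4
      omega
    calc 8 = 2 ^ 3 := by norm_num
      _ ≤ 2 ^ k := Nat.pow_le_pow_right (by norm_num) h3
  refine ⟨hN8, ?_, ?_⟩
  · by_contra hcon
    exact hE (part1 h1 S h hf N hN (by omega)).2
  · by_contra hcon
    obtain ⟨t, ht, ⟨u, v, huv⟩, hI⟩ := h2 S h hf N (by omega) hN (by omega)
    obtain ⟨x, hx1, hx⟩ := exists_rigid h hn ht huv hI
    have h3 : {b : S.G | S.q x b = S.zero} ⊆ {1, x} := by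
      intro e he
      rcases hx e he with h4 | h4
      · exact Or.inl h4
      · exact Or.inr h4
    have h5 := Set.ncard_le_ncard h3 (Set.toFinite _)
    have h6 : ({1, x} : Set S.G).ncard ≤ 2 := Set.ncard_insert_le _ _ |>.trans (by
      rw [Set.ncard_singleton])
    rw [hN x hx1] at h5
    omega

theorem part3 (S : QData) (hf : Finite S.G)
    (ht : ∀ a b : S.G, a ≠ 1 → b ≠ 1 → ∃ α : S.G ≃* S.G,
      (∀ x y, S.q x y = S.zero → S.q (α x) (α y) = S.zero) ∧ α a = b) :
    ∃ N : ℕ, ∀ a : S.G, a ≠ 1 → {b : S.G | S.q a b = S.zero}.ncard = N := by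
  by_cases hne : ∃ a : S.G, a ≠ 1
  · obtain ⟨a₀, ha₀⟩ := hne
    have hle : ∀ a b : S.G, a ≠ 1 → b ≠ 1 →
        {x : S.G | S.q a x = S.zero}.ncard ≤ {x : S.G | S.q b x = S.zero}.ncard := by
      intro a b ha hb
      obtain ⟨α, hα, hab⟩ := ht a b ha hb
      refine Set.ncard_le_ncard_of_injOn α (fun x hx => ?_) (α.injective.injOn) (Set.toFinite _)
      have := hα a x hx
      rw [hab] at this
      exact this
    exact ⟨_, fun a ha => le_antisymm (hle a a₀ ha ha₀) (hle a₀ a ha₀ ha)⟩
  · push Not at hne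
    exact ⟨0, fun a ha => absurd (hne a) ha⟩

theorem part4 (h3 : S_SNG) (S : QData) (h : IsQuat S) (hf : Finite S.G)
    (Γ : Subgroup (MulAut S.G)) (hc : ∀ α ∈ Γ, ∀ β ∈ Γ, α * β = β * α)
    (ho : ∀ α ∈ Γ, ∀ x y : S.G, S.q x y = S.zero → S.q (α x) (α y) = S.zero)
    (ht : ∀ a b : S.G, a ≠ 1 → b ≠ 1 → ∃ α ∈ Γ, α a = b) : Elem S := by
  by_cases hn : S.neg = 1
  · refine main S h hf hn ?_
    intro a b c hb hab hbc
    refine h3 S.G h.exp2 Γ hc ht (fun a => D h a) ?_ ?_ ?_ a b c hb hab hbc
    · intro a b hab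
      show S.q b a = S.zero
      rw [h.qs2]
      exact hab
    · intro a
      show S.q a a = S.zero
      have := h.qs1 a
      rwa [hn, one_mul] at this
    · intro α hα a b hab
      exact ho α hα a b hab
  · have key : ∀ a x : S.G, x ≠ 1 → S.q a (x * a) = S.zero := by
      intro a x hx
      obtain ⟨γ, hγ, hγx⟩ := ht S.neg x hn hx
      have h4 := ho γ hγ (γ.symm a) (S.neg * γ.symm a) (h.qs1 _)
      have e1 : γ (γ.symm a) = a := γ.apply_symm_apply a
      rw [map_mul, e1, hγx] at h4
      exact h4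
    have key' : ∀ a x : S.G, x ≠ a → S.q a x = S.zero := by
      intro a x hx
      have h4 := key a (x * a) (by
        intro h5
        apply hx
        have h6 := congrArg (· * a) h5
        simp only [mul_assoc, h.exp2, mul_one, one_mul] at h6
        exact h6)
      rw [mul_assoc, h.exp2, mul_one] at h4
      exact h4
    refine elem_of_indexTwo h hf fun a x y => ?_
    by_cases hx : x = a
    · by_cases hy : y = a
      · right; right
        rw [hx, hy, h.exp2]
        exact one_mem_V h a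
      · right; left
        exact key' a y hy
    · left
      exact key' a x hx

end Pool.Agent.L0h56.HS
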