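import Pool.Agent.L0h56.HS.Pfi
import Pool.Agent.L0h56.HS.Avg
import Pool.Agent.L0h56.HS.Fin2

/-!
# Board HS: structures with equal orders are of elementary type
-/

set_option autoImplicit false

namespace Pool.Agent.L0h56.HS

open Pool.Agent.H315R3.ETC

/-- the arithmetic, over the integers -/
theorem arith {N e g c d : ℤ} (hN : 4 ≤ N) (he : 0 ≤ e) (_hc : 0 ≤ c)
    (hd : d + e + N = N ^ 2 + 1) (hi : 2 * d * (N - 1) + 2 ≤ N ^ 3 + d * e) (hg : c + 1 ≤ g)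
    (hcs : d * (N - 1) ^ 2 ≤ c * (N - 1 + e))
    (havg : 2 * g * e ≤ N * ((N - 1) * (N - 2) ^ 2) + 2 * N * e)
    (h2 : 2 * N ^ 2 ≤ g) (h4 : 2 * g < N ^ 3 → 4 * g ≤ N ^ 3) : False := by
  have hd' : d = N ^ 2 + 1 - N - e := by linarith
  subst hd'
  -- step 1
  have s1 : N * (N - 2) ^ 2 + e ^ 2 ≤ (N ^ 2 + N - 1) * e := by nlinarith
  have s2 : 0 < e := by
    rcases he.lt_or_eq with h | h
    · exact h
    · exfalso
      rw [← h] at s1
      have : 0 < N * (N - 2) ^ 2 := mul_pos (by linarith) (pow_pos (by linarith) 2)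
      nlinarith
  -- step 2
  have s3 : e * (2 * g) ≤ e * (N ^ 3 + 1 - (N - 1) * e) := by
    have h5 := mul_le_mul_of_nonneg_left s1 (show 0 ≤ N - 1 by linarith)
    have h6 : (N - 1) * (N * (N - 2) ^ 2 + e ^ 2) = N * ((N - 1) * (N - 2) ^ 2) + (N - 1) * e ^ 2 := by
      ring
    have h7 : (N - 1) * ((N ^ 2 + N - 1) * e) + 2 * N * e = e * (N ^ 3 + 1) := by ring
    have h8 : e * (N ^ 3 + 1 - (N - 1) * e) = e * (N ^ 3 + 1) - (N - 1) * e ^ 2 := by ring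
    have h9 : e * (2 * g) = 2 * g * e := by ring
    rw [h8, h9]
    linarith
  have s4 : 2 * g ≤ N ^ 3 + 1 - (N - 1) * e := le_of_mul_le_mul_left s3 s2
  have s5 : 2 * g < N ^ 3 := by nlinarith
  have s6 := h4 s5
  -- step 4
  have s7 : 4 * c ≤ N ^ 3 - 4 := by linarith
  have s8 : (N - 1) * (3 * N ^ 2 - 8 * N + 8) ≤ e * (N ^ 2 + 4 * N - 8) := by
    have h5 : 4 * (c * (N - 1 + e)) ≤ (N ^ 3 - 4) * (N - 1 + e) := by
      have := mul_le_mul_of_nonneg_right s7 (show 0 ≤ N - 1 + e by linarith)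
      linarith
    have h6 : N * ((N - 1) * (3 * N ^ 2 - 8 * N + 8)) ≤ N * (e * (N ^ 2 + 4 * N - 8)) := by
      have h7 : N * ((N - 1) * (3 * N ^ 2 - 8 * N + 8)) - N * (e * (N ^ 2 + 4 * N - 8)) =
          4 * ((N ^ 2 + 1 - N - e) * (N - 1) ^ 2) - (N ^ 3 - 4) * (N - 1 + e) := by ring
      linarith
    exact le_of_mul_le_mul_left h6 (by linarith)
  -- step 5
  have s9 : 4 * e ≤ (N - 2) ^ 2 := by
    have h5 : 2 * (2 * N ^ 2) * e ≤ 2 * g * e :=
      mul_le_mul_of_nonneg_right (by linarith) he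
    have h6 : N * (2 * (2 * N - 1) * e) ≤ N * ((N - 1) * (N - 2) ^ 2) := by
      have h7 : N * (2 * (2 * N - 1) * e) = 2 * (2 * N ^ 2) * e - 2 * N * e := by ring
      linarith
    have h8 := le_of_mul_le_mul_left h6 (by linarith)
    have h9 : (N - 1) * (4 * e) ≤ (N - 1) * (N - 2) ^ 2 := by nlinarith
    exact le_of_mul_le_mul_left h9 (by linarith)
  -- step 6
  have s10 : e * (N ^ 2 - 2 - 2 * e) ≤ (N - 1) * (N - 2) ^ 2 := by
    have h5 : c * (N - 1 + e) ≤ (g - 1) * (N - 1 + e) :=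
      mul_le_mul_of_nonneg_right (by linarith) (by linarith)
    have h6 : 2 * e * ((N ^ 2 + 1 - N - e) * (N - 1) ^ 2) ≤ 2 * e * ((g - 1) * (N - 1 + e)) :=
      mul_le_mul_of_nonneg_left (hcs.trans h5) (by linarith)
    have h7 : 2 * (g - 1) * e ≤ (N - 1) * (N * (N - 2) ^ 2 + 2 * e) := by
      have : (N - 1) * (N * (N - 2) ^ 2 + 2 * e) = N * ((N - 1) * (N - 2) ^ 2) + 2 * N * e - 2 * e := by
        ring
      linarith
    have h8 : 2 * (g - 1) * e * (N - 1 + e) ≤ (N - 1) * (N * (N - 2) ^ 2 + 2 * e) * (N - 1 + e) :=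
      mul_le_mul_of_nonneg_right h7 (by linarith)
    have h9 : (N - 1) * (2 * e * (N ^ 2 + 1 - N - e) * (N - 1)) ≤
        (N - 1) * ((N * (N - 2) ^ 2 + 2 * e) * (N - 1 + e)) := by
      have e1 : 2 * e * ((g - 1) * (N - 1 + e)) = 2 * (g - 1) * e * (N - 1 + e) := by ring
      have e2 : (N - 1) * (2 * e * (N ^ 2 + 1 - N - e) * (N - 1)) =
        2 * e * ((N ^ 2 + 1 - N - e) * (N - 1) ^ 2) := by ring
      have e3 : (N - 1) * ((N * (N - 2) ^ 2 + 2 * e) * (N - 1 + e)) =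
        (N - 1) * (N * (N - 2) ^ 2 + 2 * e) * (N - 1 + e) := by ring
      rw [e2, e3]
      linarith
    have h10 := le_of_mul_le_mul_left h9 (by linarith)
    have h11 : N * (e * (N ^ 2 - 2 - 2 * e)) ≤ N * ((N - 1) * (N - 2) ^ 2) := by
      have : N * (e * (N ^ 2 - 2 - 2 * e)) - N * ((N - 1) * (N - 2) ^ 2) =
        2 * e * (N ^ 2 + 1 - N - e) * (N - 1) - (N * (N - 2) ^ 2 + 2 * e) * (N - 1 + e) := by ring
      linarith
    exact le_of_mul_le_mul_left h11 (by linarith)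
  -- step 7
  have s11 : e * (4 * e) ≤ e * (N - 2) ^ 2 := mul_le_mul_of_nonneg_left s9 he
  have s12 : e * (N ^ 2 + 4 * N - 8) ≤ 2 * ((N - 1) * (N - 2) ^ 2) := by
    have : e * (N ^ 2 + 4 * N - 8) = 2 * (e * (N ^ 2 - 2 - 2 * e)) + e * (4 * e) - e * (N - 2) ^ 2 := by
      ring
    linarith
  have s13 : (N - 1) * N ^ 2 ≤ 0 := by
    have : (N - 1) * N ^ 2 = (N - 1) * (3 * N ^ 2 - 8 * N + 8) - 2 * ((N - 1) * (N - 2) ^ 2) := by ring
    linarith
  have s14 : 0 < (N - 1) * N ^ 2 := mul_pos (by linarith) (pow_pos (by linarith) 2)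
  linarith

/-- If all `V(a)`, `a ≠ 1`, have the same order `N ≥ 4` then `|G| ≤ N ^ 2` -/
theorem part7 (hP : S_PF2) (hA : S_AVG) (S : QData) (h : IsQuat S) (hf : Finite S.G) (N : ℕ)
    (hN4 : 4 ≤ N) (hN : ∀ a : S.G, a ≠ 1 → {b : S.G | S.q a b = S.zero}.ncard = N) :
    Nat.card S.G ≤ N ^ 2 := by
  classical
  by_contra hcon
  rw [not_le] at hcon
  have hN2 : 2 ≤ N := by omega
  obtain ⟨a₀, ha₀⟩ : ∃ a : S.G, a ≠ 1 := by
    by_contra hall
    push Not at hall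
    have : Subsingleton S.G := ⟨fun x y => (hall x).trans (hall y).symm⟩
    have h1 : Nat.card S.G ≤ 1 := Finite.card_le_one_iff_subsingleton.2 this
    nlinarith
  obtain ⟨b₀, hb₀⟩ : ∃ b : S.G, S.q a₀ b ≠ S.zero := by
    by_contra hall
    push Not at hall
    have h1 := hN a₀ ha₀
    have h2 : {b : S.G | S.q a₀ b = S.zero} = Set.univ := by
      ext b
      simp [hall b]
    rw [h2, Set.ncard_univ] at h1
    nlinarith
  have hex : ∃ e : ℕ, ∃ (t : S.Q) (a b : S.G), t ≠ S.zero ∧ S.q a b = t ∧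
      {x : S.G | ∃ y, S.q x y = t}.ncard + e + N = N ^ 2 + 1 := by
    obtain ⟨e, c, h1, -⟩ := hP S h hf N hN2 hN _ a₀ b₀ hb₀ rfl
    exact ⟨e, _, a₀, b₀, hb₀, rfl, h1⟩
  obtain ⟨e, he⟩ : ∃ e, e = Nat.find hex := ⟨_, rfl⟩
  obtain ⟨t, a, b, ht, hab, hd⟩ := Nat.find_spec hex
  rw [← he] at hd
  have hmin : ∀ (t : S.Q) (a b : S.G), t ≠ S.zero → S.q a b = t →
      {x : S.G | ∃ y, S.q x y = t}.ncard + e + N ≤ N ^ 2 + 1 := by
    intro t' a' b' ht' hab'
    obtain ⟨e', c', h1, -⟩ := hP S h hf N hN2 hN t' a' b' ht' hab'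
    have h2 : Nat.find hex ≤ e' := Nat.find_min' hex ⟨t', a', b', ht', hab', h1⟩
    omega
  have havg := hA S h hf N hN2 hN ⟨a₀, ha₀⟩ e hmin
  obtain ⟨e', c, h1, h2, h3, h4⟩ := hP S h hf N hN2 hN t a b ht hab
  have hee : e' = e := by omega
  subst hee
  obtain ⟨j, hj⟩ := card_pow h hf a₀
  rw [hN a₀ ha₀] at hj
  obtain ⟨k, hk⟩ := card_sub_pow h hf (⊤ : Subgroup S.G)
  rw [Subgroup.card_top] at hk
  obtain ⟨d, hd'⟩ : ∃ d, d = {x : S.G | ∃ y, S.q x y = t}.ncard := ⟨_, rfl⟩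
  obtain ⟨g, hg⟩ : ∃ g, g = Nat.card S.G := ⟨_, rfl⟩
  rw [← hd'] at h1 h2 h4
  rw [← hg] at h3 hcon havg hk
  have p1 : 2 * N ^ 2 ≤ g := by
    rw [hj, hk, ← pow_mul] at hcon
    have h5 : j * 2 < k := (Nat.pow_lt_pow_iff_right (by norm_num)).1 hcon
    rw [hj, hk, ← pow_mul]
    calc 2 * 2 ^ (j * 2) = 2 ^ (j * 2 + 1) := by rw [pow_succ]; ring
      _ ≤ 2 ^ k := Nat.pow_le_pow_right (by norm_num) h5
  have p2 : 2 * g < N ^ 3 → 4 * g ≤ N ^ 3 := by
    intro h6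
    have e1 : 2 * g = 2 ^ (k + 1) := by rw [hk, pow_succ]; ring
    have e2 : 4 * g = 2 ^ (k + 2) := by rw [hk, pow_add]; ring
    rw [e1, hj, ← pow_mul] at h6
    have h5 : k + 1 < j * 3 := (Nat.pow_lt_pow_iff_right (by norm_num)).1 h6
    rw [e2, hj, ← pow_mul]
    exact Nat.pow_le_pow_right (by norm_num) h5
  have c1 : ((N - 1 : ℕ) : ℤ) = (N : ℤ) - 1 := by
    rw [Nat.cast_sub (by omega)]
    norm_num
  have c2 : ((N - 2 : ℕ) : ℤ) = (N : ℤ) - 2 := by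
    rw [Nat.cast_sub (by omega)]
    norm_num
  refine arith (N := N) (e := e') (g := g) (c := c) (d := d)
    (by exact_mod_cast hN4) (by positivity) (by positivity) (by exact_mod_cast h1) ?_
    (by exact_mod_cast h3) ?_ ?_ (by exact_mod_cast p1) (by exact_mod_cast p2)
  · rw [← c1]
    exact_mod_cast h2
  · rw [← c1]
    exact_mod_cast h4
  · rw [← c1, ← c2]
    exact_mod_cast havg

/-- equal orders -/
theorem part8 (hE : S_EQO) (hD : S_DSM) (S : QData) (h : IsQuat S) (hf : Finite S.G) (N : ℕ)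
    (hN : ∀ a : S.G, a ≠ 1 → {b : S.G | S.q a b = S.zero}.ncard = N) :
    Elem S ∧ (N ≤ 2 ∨ Nat.card S.G ≤ 2 * N) := by
  by_cases hN2 : N ≤ 2
  · refine ⟨elem_small2 _ S h hf le_rfl fun a ha => ?_, Or.inl hN2⟩
    show {b : S.G | S.q a b = S.zero}.ncard ≤ 2
    rw [hN a ha]
    exact hN2
  · have hle : Nat.card S.G ≤ N ^ 2 := by
      by_cases hall : ∀ a : S.G, a = 1
      · have : Subsingleton S.G := ⟨fun x y => (hall x).trans (hall y).symm⟩
        have h1 : Nat.card S.G ≤ 1 := Finite.card_le_one_iff_subsingleton.2 this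
        nlinarith
      · push Not at hall
        obtain ⟨a₀, ha₀⟩ := hall
        refine part7 (t_PF2 hD) (t_AVG hD) S h hf N ?_ hN
        obtain ⟨k, hk⟩ := card_pow h hf a₀
        rw [hN a₀ ha₀] at hk
        have h3 : 1 < k := by
          by_contra hcon
          have h4 : k ≤ 1 := by omega
          have h5 : 2 ^ k ≤ 2 ^ 1 := Nat.pow_le_pow_right (by norm_num) h4
          omega
        calc 4 = 2 ^ 2 := by norm_num
          _ ≤ 2 ^ k := Nat.pow_le_pow_right (by norm_num) h3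
          _ = N := hk.symm
    obtain ⟨h1, h2⟩ := part1 hE S h hf N hN hle
    exact ⟨h2, Or.inr h1⟩

end Pool.Agent.L0h56.HS
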