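import Pool.Agent.L0h56.HS.Stm2
import Pool.Agent.L0h56.HS.Fin
import Pool.Agent.L0h85.HS.IND

/-!
# Board HS, module PFI
-/

set_option autoImplicit false
set_option linter.all false

namespace Pool.Agent.L0h56.HS

open Pool.Agent.H315R3.ETC Pool.Agent.L0h85.HS

/-- the elements orthogonal to some slot of `t` -/
def UU {S : QData} (h : IsQuat S) (t : S.Q) (ht : ∃ x z, S.q x z = t) : Subgroup S.G where
  carrier := {y | ∃ x, (∃ z, S.q x z = t) ∧ S.q y x = S.zero}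
  one_mem' := by
    obtain ⟨x, hx⟩ := ht
    exact ⟨x, hx, q1 h x⟩
  mul_mem' := by
    rintro y y' ⟨x1, ⟨u1, hu1⟩, hy1⟩ ⟨x2, ⟨u2, hu2⟩, hy2⟩
    obtain ⟨z, hz1, hz2⟩ := h.qs4 _ _ _ _ (hu1.trans hu2.symm)
    rw [hu1] at hz1
    rw [hu2] at hz2
    have e1 : S.q (y * z) x1 = t := by
      rw [h.qs2, q_shift h z (by rw [h.qs2]; exact hy1)]
      exact hz1.symm
    have e2 : S.q (y' * z) x2 = t := by
      rw [h.qs2, q_shift h z (by rw [h.qs2]; exact hy2)]
      exact hz2.symm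
    obtain ⟨w, hw1, hw2⟩ := h.qs4 _ _ _ _ (e1.trans e2.symm)
    rw [e1] at hw1
    rw [e2] at hw2
    refine ⟨w, ⟨y * z, by rw [h.qs2]; exact hw1.symm⟩, ?_⟩
    have e3 : S.q w (y * z) = S.q w (y' * z) := by
      rw [h.qs2 w, h.qs2 w, ← hw1, ← hw2]
    rw [h.qs3] at e3
    have e4 : y * z * (y' * z) = y * y' := by
      rw [mul_mul_mul_comm, h.exp2, mul_one]
    rw [e4] at e3
    rw [h.qs2]
    exact e3
  inv_mem' := by
    intro y hy
    have : y⁻¹ = y := inv_eq_of_mul_eq_one_left (h.exp2 y)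
    rw [this]
    exact hy

theorem card_sub_pow {S : QData} (h : IsQuat S) (hf : Finite S.G) (K : Subgroup S.G) :
    ∃ k : ℕ, Nat.card K = 2 ^ k := by
  have hp : IsPGroup 2 K := by
    intro x
    refine ⟨1, ?_⟩
    rw [pow_one, sq]
    exact Subtype.ext (h.exp2 x.1)
  have : Fact (Nat.Prime 2) := ⟨Nat.prime_two⟩
  exact hp.exists_card_eq

/-- PF2: as PFI, and moreover Cauchy-Schwarz: `d (N - 1) ^ 2 ≤ c (N - 1 + e)`, where `c + 1` is the order of
the subgroup of the elements orthogonal to some slot of `t` -/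
def S_PF2 : Prop := ∀ S : QData, IsQuat S → Finite S.G → ∀ N : ℕ, 2 ≤ N →
  (∀ a : S.G, a ≠ 1 → {b : S.G | S.q a b = S.zero}.ncard = N) → ∀ (t : S.Q) (a b : S.G), t ≠ S.zero → S.q a b = t →
  ∃ e c : ℕ, {x : S.G | ∃ y, S.q x y = t}.ncard + e + N = N ^ 2 + 1 ∧
    2 * {x : S.G | ∃ y, S.q x y = t}.ncard * (N - 1) + 2 ≤ N ^ 3 + {x : S.G | ∃ y, S.q x y = t}.ncard * e ∧
    c + 1 ≤ Nat.card S.G ∧
    {x : S.G | ∃ y, S.q x y = t}.ncard * (N - 1) ^ 2 ≤ c * (N - 1 + e)

theorem t_PF2 : S_DSM → S_PF2 := by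
  intro hDSM S h hfin N hN2 hN t a b ht hab
  classical
  have : Fintype S.G := Fintype.ofFinite _
  have hv : ∀ a : S.G, a ≠ 1 → vv S a = N := fun a ha => by rw [← vv_eq]; exact hN a ha
  obtain ⟨D, hD⟩ : ∃ D : Finset S.G, D = Finset.univ.filter (fun x : S.G => ∃ y, S.q x y = t) :=
    ⟨_, rfl⟩
  have hmD : ∀ x, x ∈ D ↔ ∃ y, S.q x y = t := by
    intro x
    rw [hD]
    simp
  have hDset : {x : S.G | ∃ y, S.q x y = t} = (D : Set S.G) := by
    ext x
    rw [Finset.mem_coe, hmD]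
    rfl
  have hDc : {x : S.G | ∃ y, S.q x y = t}.ncard = D.card := by
    rw [hDset, Set.ncard_coe_finset]
  have hD1 : ∀ x ∈ D, x ≠ 1 := by
    rintro x hx rfl
    obtain ⟨y, hy⟩ := (hmD _).1 hx
    rw [q1 h] at hy
    exact ht hy.symm
  have dsm : ∀ x ∈ D, ∑ y ∈ D, w S x y = N ^ 2 := by
    intro x hx
    obtain ⟨z, hz⟩ := (hmD _).1 hx
    rw [← hDSM S h hfin N hN t x z ht hz, hDset, finsum_mem_coe_finset]
    exact Finset.sum_congr rfl fun y _ => (w_eq x y).symm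
  -- the multiplicity
  obtain ⟨m, hm⟩ : ∃ m : S.G → ℕ, m = fun y => (D.filter (fun x => S.q y x = S.zero)).card :=
    ⟨_, rfl⟩
  have hm1 : m 1 = D.card := by
    rw [hm]
    show (D.filter (fun x => S.q 1 x = S.zero)).card = D.card
    rw [Finset.filter_true_of_mem fun x _ => q1 h x]
  have hmsum : ∀ y, m y = ∑ x ∈ D, if S.q y x = S.zero then 1 else 0 := by
    intro y
    rw [hm]
    exact Finset.card_filter _ _
  -- the sum over a value group
  have hVa : ∀ x ∈ D, ∑ y ∈ Finset.univ.filter (fun y : S.G => S.q x y = S.zero), m y = N ^ 2 := by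
    intro x hx
    rw [← dsm x hx, Finset.sum_congr rfl fun y _ => hmsum y, Finset.sum_comm]
    refine Finset.sum_congr rfl fun z _ => ?_
    rw [← Finset.card_filter, Finset.filter_filter]
    unfold w
    congr 1
    ext d
    simp only [Finset.mem_filter, Finset.mem_univ, true_and]
    rw [h.qs2 d z]
  have hpos : ∀ x ∈ D, ∀ y, S.q x y = S.zero → 1 ≤ m y := by
    intro x hx y hxy
    rw [hm]
    refine Finset.card_pos.2 ⟨x, ?_⟩
    rw [Finset.mem_filter]
    exact ⟨hx, by rw [h.qs2]; exact hxy⟩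
  have haD : a ∈ D := (hmD a).2 ⟨b, hab⟩
  -- the bound for `d`
  have hd1 : D.card + (N - 1) ≤ N ^ 2 := by
    have h1 : (1 : S.G) ∈ Finset.univ.filter (fun y : S.G => S.q a y = S.zero) := by
      simp [q_one h]
    have h2 := hVa a haD
    rw [← Finset.add_sum_erase _ _ h1, hm1] at h2
    have h3 : ((Finset.univ.filter (fun y : S.G => S.q a y = S.zero)).erase 1).card ≤
        ∑ y ∈ (Finset.univ.filter (fun y : S.G => S.q a y = S.zero)).erase 1, m y := by
      rw [Finset.card_eq_sum_ones]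
      refine Finset.sum_le_sum fun y hy => hpos a haD y ?_
      exact (Finset.mem_filter.1 (Finset.mem_of_mem_erase hy)).2
    rw [Finset.card_erase_of_mem h1] at h3
    have h4 := hv a (hD1 a haD)
    unfold vv at h4
    rw [h4] at h3
    omega
  obtain ⟨e, he⟩ : ∃ e, D.card + e + N = N ^ 2 + 1 := ⟨N ^ 2 + 1 - N - D.card, by omega⟩
  -- first and second moments
  have hS1 : ∑ y, m y = D.card * N := by
    rw [Finset.sum_congr rfl fun y _ => hmsum y, Finset.sum_comm]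
    rw [Finset.sum_congr rfl (g := fun _ => N) (fun x hx => ?_), Finset.sum_const, smul_eq_mul]
    rw [← Finset.card_filter, ← hv x (hD1 x hx)]
    unfold vv
    congr 1
    ext d
    simp only [Finset.mem_filter, Finset.mem_univ, true_and]
    rw [h.qs2 d x]
  have hS2 : ∑ y, m y * m y = D.card * N ^ 2 := by
    have h1 : ∀ y, m y * m y = ∑ x ∈ D, if S.q y x = S.zero then m y else 0 := by
      intro y
      rw [← Finset.sum_filter, Finset.sum_const, smul_eq_mul]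
      congr 1
      rw [hm]
    rw [Finset.sum_congr rfl fun y _ => h1 y, Finset.sum_comm]
    rw [Finset.sum_congr rfl (g := fun _ => N ^ 2) (fun x hx => ?_), Finset.sum_const, smul_eq_mul]
    rw [← hVa x hx, ← Finset.sum_filter]
    refine Finset.sum_congr ?_ fun _ _ => rfl
    ext d
    simp only [Finset.mem_filter, Finset.mem_univ, true_and]
    rw [h.qs2 d x]
  -- the subgroup
  have hU : Nat.card (UU h t ⟨a, b, hab⟩) =
      (Finset.univ.filter (fun y : S.G => 1 ≤ m y)).card := by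
    rw [Nat.subtype_card]
    intro y
    simp only [Finset.mem_filter, Finset.mem_univ, true_and]
    constructor
    · intro hy
      rw [hm] at hy
      obtain ⟨x, hx⟩ := Finset.card_pos.1 hy
      rw [Finset.mem_filter, hmD] at hx
      exact ⟨x, hx.1, hx.2⟩
    · rintro ⟨x, hx, hxy⟩
      exact hpos x ((hmD x).2 hx) y (by rw [h.qs2]; exact hxy)
  have h1u : (1 : S.G) ∈ (Finset.univ : Finset S.G) := Finset.mem_univ _
  have hUe : Nat.card (UU h t ⟨a, b, hab⟩) =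
      1 + ∑ y ∈ Finset.univ.erase (1 : S.G), (if 1 ≤ m y then 1 else 0) := by
    rw [hU, Finset.card_filter, ← Finset.add_sum_erase _ _ h1u, if_pos]
    exact hpos a haD 1 (q_one h a)
  have hT1 : ∑ y ∈ Finset.univ.erase (1 : S.G), m y + D.card = D.card * N := by
    rw [← hS1, ← Finset.add_sum_erase _ _ h1u, hm1]
    ring
  have hT2 : ∑ y ∈ Finset.univ.erase (1 : S.G), m y * m y + D.card * D.card = D.card * N ^ 2 := by
    rw [← hS2, ← Finset.add_sum_erase _ _ h1u, hm1]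
    ring
  -- the upper bound
  have hup : Nat.card (UU h t ⟨a, b, hab⟩) ≤ 1 + ∑ y ∈ Finset.univ.erase (1 : S.G), m y := by
    rw [hUe]
    refine Nat.add_le_add_left (Finset.sum_le_sum fun y _ => ?_) 1
    split_ifs with h3
    · exact h3
    · exact Nat.zero_le _
  -- the lower bound
  have hlow : 3 * ∑ y ∈ Finset.univ.erase (1 : S.G), m y ≤
      2 * ∑ y ∈ Finset.univ.erase (1 : S.G), (if 1 ≤ m y then 1 else 0) +
        ∑ y ∈ Finset.univ.erase (1 : S.G), m y * m y := by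
    rw [Finset.mul_sum, Finset.mul_sum, ← Finset.sum_add_distrib]
    refine Finset.sum_le_sum fun y _ => ?_
    split_ifs with h3
    · rcases Nat.lt_or_ge (m y) 3 with h4 | h4
      · have h5 : m y = 1 ∨ m y = 2 := by omega
        rcases h5 with h5 | h5 <;> simp [h5]
      · nlinarith
    · have : m y = 0 := by omega
      rw [this]
      norm_num
  obtain ⟨k, hk⟩ := card_sub_pow h hfin (UU h t ⟨a, b, hab⟩)
  obtain ⟨j, hj⟩ := card_pow h hfin a
  rw [hN a (hD1 a haD)] at hj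
  obtain ⟨u, hu⟩ : ∃ u, u = Nat.card (UU h t ⟨a, b, hab⟩) := ⟨_, rfl⟩
  rw [← hu] at hk hup hUe
  have hlt : u < N ^ 3 := by
    obtain ⟨n, rfl⟩ : ∃ n, N = n + 2 := ⟨N - 2, by omega⟩
    have h5 : n + 2 - 1 = n + 1 := rfl
    rw [h5] at hd1
    have h6 : D.card ≤ (n + 2) ^ 2 - (n + 1) := by omega
    have h7 : D.card * (n + 1) ≤ ((n + 2) ^ 2 - (n + 1)) * (n + 1) := Nat.mul_le_mul_right _ h6
    have h8 : (n + 2) ^ 2 - (n + 1) = n ^ 2 + 3 * n + 3 := by
      have : (n + 2) ^ 2 = n ^ 2 + 3 * n + 3 + (n + 1) := by ring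
      omega
    rw [h8] at h7
    have h9 : u ≤ 1 + D.card * (n + 1) := by
      have : ∑ y ∈ Finset.univ.erase (1 : S.G), m y = D.card * (n + 1) := by
        have h10 : D.card * (n + 2) = D.card * (n + 1) + D.card := by ring
        omega
      omega
    calc u ≤ 1 + D.card * (n + 1) := h9
      _ ≤ 1 + (n ^ 2 + 3 * n + 3) * (n + 1) := by omega
      _ < (n + 2) ^ 3 := by ring_nf; omega
  have h2u : 2 * u ≤ N ^ 3 := by
    rw [hk, hj, ← pow_mul] at hlt
    rw [hk, hj, ← pow_mul]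
    have h5 : k < j * 3 := (Nat.pow_lt_pow_iff_right (by norm_num)).1 hlt
    calc 2 * 2 ^ k = 2 ^ (k + 1) := by rw [pow_succ]; ring
      _ ≤ 2 ^ (j * 3) := Nat.pow_le_pow_right (by norm_num) h5
  have huG : u ≤ Nat.card S.G := by
    rw [hu]
    exact Subgroup.card_le_card_group _
  have hCS : (∑ y ∈ Finset.univ.erase (1 : S.G), m y) ^ 2 ≤
      (∑ y ∈ Finset.univ.erase (1 : S.G), (if 1 ≤ m y then 1 else 0)) *
        ∑ y ∈ Finset.univ.erase (1 : S.G), m y * m y := by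
    have h5 := Finset.sum_mul_sq_le_sq_mul_sq (Finset.univ.erase (1 : S.G))
      (fun y => if 1 ≤ m y then 1 else 0) m
    have h6 : ∑ y ∈ Finset.univ.erase (1 : S.G), (if 1 ≤ m y then 1 else 0) * m y =
        ∑ y ∈ Finset.univ.erase (1 : S.G), m y := by
      refine Finset.sum_congr rfl fun y _ => ?_
      split_ifs with h7
      · rw [one_mul]
      · omega
    have h7 : ∑ y ∈ Finset.univ.erase (1 : S.G), (if 1 ≤ m y then 1 else 0) ^ 2 =
        ∑ y ∈ Finset.univ.erase (1 : S.G), (if 1 ≤ m y then 1 else 0) := by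
      refine Finset.sum_congr rfl fun y _ => ?_
      split_ifs with h7
      · rfl
      · rfl
    have h8 : ∑ y ∈ Finset.univ.erase (1 : S.G), m y ^ 2 =
        ∑ y ∈ Finset.univ.erase (1 : S.G), m y * m y :=
      Finset.sum_congr rfl fun y _ => sq _
    rw [h6, h7, h8] at h5
    exact h5
  have hd0 : 0 < D.card := Finset.card_pos.2 ⟨a, haD⟩
  refine ⟨e, ∑ y ∈ Finset.univ.erase (1 : S.G), (if 1 ≤ m y then 1 else 0),
    by rw [hDc]; exact he, ?_⟩
  rw [hDc]
  obtain ⟨A, hA⟩ : ∃ A, A = ∑ y ∈ Finset.univ.erase (1 : S.G), m y := ⟨_, rfl⟩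
  obtain ⟨B, hB⟩ : ∃ B, B = ∑ y ∈ Finset.univ.erase (1 : S.G), m y * m y := ⟨_, rfl⟩
  obtain ⟨C, hC⟩ : ∃ C, C = ∑ y ∈ Finset.univ.erase (1 : S.G), (if 1 ≤ m y then 1 else 0) := ⟨_, rfl⟩
  rw [← hA] at hT1 hlow hCS
  rw [← hB] at hT2 hlow hCS
  rw [← hC] at hUe hlow hCS
  rw [← hC]
  obtain ⟨d, hd⟩ : ∃ d, d = D.card := ⟨_, rfl⟩
  rw [← hd] at he hT1 hT2 hd0 ⊢
  obtain ⟨n, rfl⟩ : ∃ n, N = n + 1 := ⟨N - 1, by omega⟩
  have h5 : n + 1 - 1 = n := rfl
  rw [h5]
  -- `A = d n`, `B = d (n+1)^2 - d^2`, `u = 1 + C`, `3 A ≤ 2 C + B`, `2 u ≤ (n+1)^3`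
  have hA' : A = d * n := by nlinarith
  have hB' : B + d * d = d * (n + 1) ^ 2 := hT2
  have he' : d * (d + e + (n + 1)) = d * ((n + 1) ^ 2 + 1) := by rw [he]
  obtain ⟨X, hX⟩ : ∃ X, X = d * (n + 1) ^ 2 := ⟨_, rfl⟩
  obtain ⟨Y, hY⟩ : ∃ Y, Y = d * d := ⟨_, rfl⟩
  obtain ⟨Z, hZ⟩ : ∃ Z, Z = d * e := ⟨_, rfl⟩
  obtain ⟨P, hP⟩ : ∃ P, P = d * n := ⟨_, rfl⟩
  obtain ⟨R, hR⟩ : ∃ R, R = (n + 1) ^ 3 := ⟨_, rfl⟩
  have e1 : Y + Z + P + d = X + d := by
    rw [hX, hY, hZ, hP]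
    have e2 : d * (d + e + (n + 1)) = d * d + d * e + d * n + d := by ring
    have e3 : d * ((n + 1) ^ 2 + 1) = d * (n + 1) ^ 2 + d := by ring
    omega
  have e4 : 2 * d * n = 2 * P := by rw [hP]; ring
  rw [← hX, ← hY] at hB'
  rw [← hP] at hA'
  rw [← hR] at h2u ⊢
  refine ⟨?_, by omega, ?_⟩
  · rw [← hZ, e4]
    omega
  · have e5 : B = d * (n + e) := by
      have : d * (n + e) = P + Z := by rw [hP, hZ]; ring
      omega
    rw [hA', hP, e5] at hCS
    have e6 : d * (d * n ^ 2) ≤ d * (C * (n + e)) := by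
      calc d * (d * n ^ 2) = (d * n) ^ 2 := by ring
        _ ≤ C * (d * (n + e)) := hCS
        _ = _ := by ring
    exact Nat.le_of_mul_le_mul_left e6 hd0

end Pool.Agent.L0h56.HS
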