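import Pool.Agent.L0h56.HS.Fin3

/-!
# Board HS: the radical
-/

set_option autoImplicit false

namespace Pool.Agent.L0h56.HS

open Pool.Agent.H315R3.ETC Pool.Agent.Y920.ETC Pool.Agent.L0h85.HS

/-- restriction to a subgroup, with a new `-1` -/
def resK (S : QData) (K : Subgroup S.G) (m : K) : QData :=
  ⟨K, S.Q, m, fun a b => S.q a.1 b.1, S.zero⟩

section

variable {S : QData} (h : IsQuat S) (K : Subgroup S.G) (r : S.G) (hr : ∀ y, S.q r y = S.zero)
  (hrK : r ∉ K) (hK : ∀ y : S.G, y ∈ K ∨ y * r ∈ K)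

include h hr in
lemma q_mul_xp (a b : S.G) (β : C2) : S.q a (b * xp r β) = S.q a b := by
  rcases C2_cases β with rfl | rfl
  · rw [xp_one, mul_one]
  · rw [xp_gen, mul_comm]
    exact q_shift h b (by rw [h.qs2]; exact hr a)

include h hr in
lemma q_xp (a b : S.G) (α β : C2) : S.q (a * xp r α) (b * xp r β) = S.q a b := by
  rw [q_mul_xp h r hr, h.qs2, q_mul_xp h r hr, h.qs2]

include h hr hK in
lemma resK_quat (m : K) (hm : ∀ a : S.G, S.q a (m * a) = S.zero) : IsQuat (resK S K m) where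
  exp2 := fun a => Subtype.ext (h.exp2 a.1)
  qs1 := fun a => hm a.1
  qs2 := fun a b => h.qs2 a.1 b.1
  qs3 := fun a b c => h.qs3 a.1 b.1 c.1
  qs4 := by
    intro a b c d e
    obtain ⟨x, h1, h2⟩ := h.qs4 a.1 b.1 c.1 d.1 e
    rcases hK x with hx | hx
    · exact ⟨⟨x, hx⟩, h1, h2⟩
    · refine ⟨⟨x * r, hx⟩, ?_, ?_⟩
      · show S.q a.1 b.1 = S.q a.1 (x * r)
        have := q_mul_xp h r hr a.1 x gen
        rw [xp_gen] at this
        rw [this]
        exact h1
      · show S.q c.1 d.1 = S.q c.1 (x * r)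
        have := q_mul_xp h r hr c.1 x gen
        rw [xp_gen] at this
        rw [this]
        exact h2

include h hr hrK hK in
lemma resK_vs (a : K) :
    2 * {b : K | S.q a.1 b.1 = S.zero}.ncard = {b : S.G | S.q a.1 b = S.zero}.ncard := by
  have e1 : {b : S.G | S.q a.1 b = S.zero} =
      phi h.exp2 K r hrK hK '' ({b : K | S.q a.1 b.1 = S.zero} ×ˢ (Set.univ : Set C2)) := by
    ext y
    constructor
    · intro hy
      obtain ⟨p, hp⟩ := (phi h.exp2 K r hrK hK).surjective y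
      refine ⟨p, ⟨?_, Set.mem_univ _⟩, hp⟩
      rw [phi_apply] at hp
      have hy' : S.q a.1 y = S.zero := hy
      rw [← hp, q_mul_xp h r hr] at hy'
      exact hy'
    · rintro ⟨p, ⟨hp, -⟩, rfl⟩
      rw [phi_apply]
      show S.q a.1 _ = S.zero
      rw [q_mul_xp h r hr]
      exact hp
  rw [e1, Set.ncard_image_of_injective _ (phi h.exp2 K r hrK hK).injective, Set.ncard_prod,
    Set.ncard_univ, card_C2, mul_comm]

end

/-- removing a radical element -/
theorem rad_split {S : QData} (h : IsQuat S) (hf : Finite S.G) {r : S.G} (hr1 : r ≠ 1)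
    (hr : ∀ y, S.q r y = S.zero) :
    ∃ T : QData, IsQuat T ∧ Finite T.G ∧ Nat.card T.G < Nat.card S.G ∧ (Elem T → Elem S) ∧
      ∀ a : T.G, ∃ a' : S.G, ((∀ b, S.q a' b = S.zero) → ∀ b, T.q a b = T.zero) ∧
        2 * {b : T.G | T.q a b = T.zero}.ncard = {b : S.G | S.q a' b = S.zero}.ncard := by
  have hlt : ∀ K : Subgroup S.G, r ∉ K → Nat.card K < Nat.card S.G := by
    intro K hrK
    apply Set.ncard_lt_card (s := (K : Set S.G))
    intro hu
    exact hrK (by rw [← SetLike.mem_coe, hu]; trivial)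
  by_cases hrn : r = S.neg
  · obtain ⟨K, -, hrK, hK⟩ := split h.exp2 ⊥ r (by rwa [Subgroup.mem_bot])
    refine ⟨resK S K 1, resK_quat h K r hr hK 1 ?_, inferInstanceAs (Finite K), hlt K hrK, ?_, ?_⟩
    · intro a
      have h1 : S.q a S.neg = S.zero := by
        rw [h.qs2, ← hrn]
        exact hr a
      have h2 := q_shift h a h1
      rw [h.qs1] at h2
      show S.q a (1 * a) = S.zero
      rw [one_mul]
      exact h2.symm
    · intro hT
      refine Elem.iso _ S (Elem.prod _ _ hT Elem.l11) ⟨phi h.exp2 K r hrK hK, ?_, ?_⟩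
      · show ((1 : K) : S.G) * xp r gen = S.neg
        rw [xp_gen, hrn, Subgroup.coe_one, one_mul]
      · intro (a : K × C2) (b : K × C2) (c : K × C2) (d : K × C2)
        show (S.q a.1.1 b.1.1, ()) = (S.q c.1.1 d.1.1, ()) ↔
          S.q (a.1.1 * xp r a.2) (b.1.1 * xp r b.2) = S.q (c.1.1 * xp r c.2) (d.1.1 * xp r d.2)
        rw [q_xp h r hr, q_xp h r hr, Prod.mk.injEq]
        exact ⟨fun hh => hh.1, fun hh => ⟨hh, rfl⟩⟩
    · intro a
      exact ⟨a.1, fun hh b => hh b.1, resK_vs h K r hr hrK hK a⟩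
  · have hrz : r ∉ Subgroup.zpowers S.neg := by
      intro hz
      rw [Subgroup.mem_zpowers_iff] at hz
      obtain ⟨n, hn⟩ := hz
      have hy2 : S.neg ^ (2 : ℤ) = 1 := by rw [zpow_ofNat, pow_two]; exact h.exp2 S.neg
      rcases Int.even_or_odd' n with ⟨m, rfl | rfl⟩
      · rw [zpow_mul, hy2, one_zpow] at hn
        exact hr1 hn.symm
      · rw [zpow_add, zpow_mul, hy2, one_zpow, one_mul, zpow_one] at hn
        exact hrn hn.symm
    obtain ⟨K, hNK, hrK, hK⟩ := split h.exp2 (Subgroup.zpowers S.neg) r hrz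
    have hneg : S.neg ∈ K := hNK (Subgroup.mem_zpowers _)
    refine ⟨resK S K ⟨S.neg, hneg⟩, resK_quat h K r hr hK _ (fun a => h.qs1 a),
      inferInstanceAs (Finite K), hlt K hrK, ?_, ?_⟩
    · intro hT
      refine Elem.iso _ S (Elem.prod _ _ hT Elem.l10) ⟨phi h.exp2 K r hrK hK, ?_, ?_⟩
      · show S.neg * xp r 1 = S.neg
        rw [xp_one, mul_one]
      · intro (a : K × C2) (b : K × C2) (c : K × C2) (d : K × C2)
        show (S.q a.1.1 b.1.1, ()) = (S.q c.1.1 d.1.1, ()) ↔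
          S.q (a.1.1 * xp r a.2) (b.1.1 * xp r b.2) = S.q (c.1.1 * xp r c.2) (d.1.1 * xp r d.2)
        rw [q_xp h r hr, q_xp h r hr, Prod.mk.injEq]
        exact ⟨fun hh => hh.1, fun hh => ⟨hh, rfl⟩⟩
    · intro a
      exact ⟨a.1, fun hh b => hh b.1, resK_vs h K r hr hrK hK a⟩

/-- all value groups different from `G` have the same order -/
theorem part9 (hE : S_EQO) (hD : S_DSM) : ∀ (n : ℕ) (S : QData), IsQuat S → Finite S.G →
    Nat.card S.G ≤ n → ∀ N : ℕ,
    (∀ a : S.G, (∀ b, S.q a b = S.zero) ∨ {b : S.G | S.q a b = S.zero}.ncard = N) → Elem S := by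
  intro n
  induction n with
  | zero =>
    intro S h hf hc
    have : 0 < Nat.card S.G := Nat.card_pos
    omega
  | succ n ih =>
    intro S h hf hc N hN
    by_cases hr : ∃ r : S.G, r ≠ 1 ∧ ∀ b, S.q r b = S.zero
    · obtain ⟨r, hr1, hr⟩ := hr
      obtain ⟨T, hT, hTf, hTc, hTe, hTv⟩ := rad_split h hf hr1 hr
      refine hTe (ih T hT hTf (by omega) (N / 2) fun a => ?_)
      obtain ⟨a', h1, h2⟩ := hTv a
      rcases hN a' with h3 | h3
      · exact Or.inl (h1 h3)
      · right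
        omega
    · push Not at hr
      refine (part8 hE hD S h hf N fun a ha => ?_).1
      rcases hN a with h3 | h3
      · obtain ⟨b, hb⟩ := hr a ha
        exact absurd (h3 b) hb
      · exact h3

/-- automorphisms transitive outside the radical -/
theorem part10 (S : QData) (hf : Finite S.G)
    (ht : ∀ a b : S.G, (∃ c, S.q a c ≠ S.zero) → (∃ c, S.q b c ≠ S.zero) → ∃ α : S.G ≃* S.G,
      (∀ x y, S.q x y = S.zero → S.q (α x) (α y) = S.zero) ∧ α a = b) :
    ∃ N : ℕ, ∀ a : S.G, (∀ b, S.q a b = S.zero) ∨ {b : S.G | S.q a b = S.zero}.ncard = N := by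
  by_cases hne : ∃ a c : S.G, S.q a c ≠ S.zero
  · obtain ⟨a₀, c₀, hac⟩ := hne
    have hle : ∀ a b : S.G, (∃ c, S.q a c ≠ S.zero) → (∃ c, S.q b c ≠ S.zero) →
        {x : S.G | S.q a x = S.zero}.ncard ≤ {x : S.G | S.q b x = S.zero}.ncard := by
      intro a b ha hb
      obtain ⟨α, hα, rfl⟩ := ht a b ha hb
      exact Set.ncard_le_ncard_of_injOn α (fun x hx => hα a x hx) (α.injective.injOn) (Set.toFinite _)
    refine ⟨{x : S.G | S.q a₀ x = S.zero}.ncard, fun a => ?_⟩
    by_cases ha : ∃ c, S.q a c ≠ S.zero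
    · exact Or.inr (le_antisymm (hle _ _ ha ⟨c₀, hac⟩) (hle _ _ ⟨c₀, hac⟩ ha))
    · push Not at ha
      exact Or.inl ha
  · push Not at hne
    exact ⟨0, fun a => Or.inl (hne a)⟩

end Pool.Agent.L0h56.HS
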