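import Pool.Agent.L0h56.HS.Int

/-!
# Board HS: equal intersections of non-orthogonal value groups
-/

set_option autoImplicit false

namespace Pool.Agent.L0h56.HS

open Pool.Agent.H315R3.ETC Pool.Agent.L0h85.HS

theorem sub_of_w {S : QData} [Fintype S.G] [DecidableEq S.Q] {N : ℕ}
    (hN : ∀ a : S.G, a ≠ 1 → vv S a = N) {a x : S.G} (ha : a ≠ 1) (hx : x ≠ 1)
    (hw : w S a x = N) : ∀ d, S.q a d = S.zero ↔ S.q x d = S.zero := by
  have h1 : (Finset.univ.filter fun d : S.G => S.q a d = S.zero ∧ S.q x d = S.zero) =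
      Finset.univ.filter (fun d : S.G => S.q a d = S.zero) := by
    refine Finset.eq_of_subset_of_card_le ?_ ?_
    · intro d hd
      simp only [Finset.mem_filter, Finset.mem_univ, true_and] at hd ⊢
      exact hd.1
    · have := hN a ha
      unfold vv at this
      rw [this]
      exact hw.ge
  have h2 : (Finset.univ.filter fun d : S.G => S.q a d = S.zero ∧ S.q x d = S.zero) =
      Finset.univ.filter (fun d : S.G => S.q x d = S.zero) := by
    refine Finset.eq_of_subset_of_card_le ?_ ?_
    · intro d hd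
      simp only [Finset.mem_filter, Finset.mem_univ, true_and] at hd ⊢
      exact hd.2
    · have := hN x hx
      unfold vv at this
      rw [this]
      exact hw.ge
  intro d
  have h3 : d ∈ Finset.univ.filter (fun d : S.G => S.q a d = S.zero) ↔
      d ∈ Finset.univ.filter (fun d : S.G => S.q x d = S.zero) := by
    rw [← h1, h2]
  simpa using h3

theorem srg (h1 : S_EQO) (S : QData) (h : IsQuat S) (hf : Finite S.G) (N m : ℕ)
    (hN : ∀ a : S.G, a ≠ 1 → {b : S.G | S.q a b = S.zero}.ncard = N)
    (hm : ∀ a c : S.G, a ≠ 1 → S.q a c ≠ S.zero →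
      {d : S.G | S.q a d = S.zero ∧ S.q c d = S.zero}.ncard = m) : Elem S := by
  classical
  by_contra hE
  have : Fintype S.G := Fintype.ofFinite _
  obtain ⟨a₀, ha₀⟩ := exists_ne_one h hf hE
  have hNN : N ^ 2 < Nat.card S.G := by
    by_contra hcon
    exact hE (part1 h1 S h hf N hN (by omega)).2
  have hg : Nat.card S.G = Fintype.card S.G := Nat.card_eq_fintype_card
  have hv : ∀ a : S.G, a ≠ 1 → vv S a = N := fun a ha => by rw [← vv_eq]; exact hN a ha
  have hm' : ∀ a c : S.G, a ≠ 1 → S.q a c ≠ S.zero → w S a c = m := fun a c ha hc => by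
    rw [← w_eq]; exact hm a c ha hc
  have hN1 : 1 ≤ N := by
    rw [← hv a₀ ha₀]
    unfold vv
    exact Finset.card_pos.2 ⟨1, by simp [q_one h]⟩
  -- the two sums
  have hsplit : ∀ a : S.G, a ≠ 1 →
      ∑ x ∈ Finset.univ.filter (fun x : S.G => S.q a x = S.zero), w S a x +
        (Fintype.card S.G - N) * m = Fintype.card S.G + (N - 1) * N := by
    intro a ha
    rw [← sum_w h hv ha, ← Finset.sum_filter_add_sum_filter_not Finset.univ
      (fun x : S.G => S.q a x = S.zero)]
    congr 1
    rw [Finset.sum_congr rfl (g := fun _ => m) (fun x hx => hm' a x ha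
      (Finset.mem_filter.1 hx).2), Finset.sum_const, smul_eq_mul]
    congr 1
    have h5 : ∀ F : Finset S.G, (∀ x, x ∈ F ↔ ¬ S.q a x = S.zero) →
        Fintype.card S.G - N = F.card := by
      intro F hF
      have h2 : (Finset.univ.filter (fun x : S.G => S.q a x = S.zero)).card + F.card =
          Fintype.card S.G := by
        rw [← Finset.card_union_of_disjoint, ← Finset.card_univ]
        · congr 1
          ext x
          simp only [Finset.mem_union, Finset.mem_filter, Finset.mem_univ, true_and, hF]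
          exact iff_true_intro (em _)
        · rw [Finset.disjoint_left]
          intro x hx hx'
          exact (hF x).1 hx' (Finset.mem_filter.1 hx).2
      have h3 := hv a ha
      unfold vv at h3
      rw [h3] at h2
      omega
    exact h5 _ fun x => by simp
  have hgN : N < Fintype.card S.G := by
    rw [← hg]
    nlinarith
  -- m = 1
  have hm1 : m = 1 := by
    have h2 := hsplit a₀ ha₀
    have h3 : N + (N - 1) ≤
        ∑ x ∈ Finset.univ.filter (fun x : S.G => S.q a₀ x = S.zero), w S a₀ x := by
      have h4 : (1 : S.G) ∈ Finset.univ.filter (fun x : S.G => S.q a₀ x = S.zero) := by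
        simp [q_one h]
      rw [← Finset.add_sum_erase _ _ h4, w_right h, hv a₀ ha₀]
      have h5 : ((Finset.univ.filter (fun x : S.G => S.q a₀ x = S.zero)).erase 1).card ≤
          ∑ x ∈ (Finset.univ.filter (fun x : S.G => S.q a₀ x = S.zero)).erase 1, w S a₀ x := by
        rw [Finset.card_eq_sum_ones]
        exact Finset.sum_le_sum fun z _ => w_pos h a₀ z
      rw [Finset.card_erase_of_mem h4] at h5
      have h6 := hv a₀ ha₀
      unfold vv at h6
      rw [h6] at h5
      omega
    have h0 : 1 ≤ m := by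
      obtain ⟨c, hc⟩ : ∃ c, S.q a₀ c ≠ S.zero := by
        by_contra hcon
        push Not at hcon
        have h6 := hv a₀ ha₀
        unfold vv at h6
        rw [Finset.filter_true_of_mem fun x _ => hcon x, Finset.card_univ] at h6
        omega
      rw [← hm' a₀ c ha₀ hc]
      exact w_pos h a₀ c
    by_contra hcon
    have h7 : 2 ≤ m := by omega
    obtain ⟨e, he⟩ : ∃ e, Fintype.card S.G = N + e := ⟨Fintype.card S.G - N, by omega⟩
    obtain ⟨n, rfl⟩ : ∃ n, N = n + 1 := ⟨N - 1, by omega⟩
    rw [hg, he] at hNN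
    rw [he] at h2
    have h8 : n + 1 + e - (n + 1) = e := by omega
    rw [h8] at h2
    have h9 : n + 1 - 1 = n := rfl
    rw [h9] at h2 h3
    have h10 : e * 2 ≤ e * m := Nat.mul_le_mul_left e h7
    nlinarith
  subst hm1
  -- orthogonal elements have the same value group
  have hsame : ∀ a x : S.G, a ≠ 1 → x ≠ 1 → S.q a x = S.zero →
      ∀ d, S.q a d = S.zero ↔ S.q x d = S.zero := by
    intro a x ha hx hax
    refine sub_of_w hv ha hx ?_
    have h2 := hsplit a ha
    have hle : ∀ y : S.G, w S a y ≤ N := by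
      intro y
      rw [← hv a ha]
      unfold w vv
      refine Finset.card_le_card fun d hd => ?_
      simp only [Finset.mem_filter, Finset.mem_univ, true_and] at hd ⊢
      exact hd.1
    have hcard : (Finset.univ.filter (fun x : S.G => S.q a x = S.zero)).card = N := by
      have := hv a ha
      unfold vv at this
      exact this
    have h3 : ∑ x ∈ Finset.univ.filter (fun x : S.G => S.q a x = S.zero), w S a x = N * N := by
      obtain ⟨n, rfl⟩ : ∃ n, N = n + 1 := ⟨N - 1, by omega⟩
      have h9 : n + 1 - 1 = n := rfl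
      rw [h9, mul_one] at h2
      have h10 : Fintype.card S.G - (n + 1) + (n + 1) = Fintype.card S.G := by omega
      nlinarith
    have hxm : x ∈ Finset.univ.filter (fun x : S.G => S.q a x = S.zero) := by simp [hax]
    rw [← Finset.add_sum_erase _ _ hxm] at h3
    have h4 : ∑ y ∈ (Finset.univ.filter (fun x : S.G => S.q a x = S.zero)).erase x, w S a y ≤
        (N - 1) * N := by
      calc _ ≤ ∑ y ∈ (Finset.univ.filter (fun x : S.G => S.q a x = S.zero)).erase x, N :=
            Finset.sum_le_sum fun y _ => hle y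
        _ = (N - 1) * N := by
            rw [Finset.sum_const, smul_eq_mul, Finset.card_erase_of_mem hxm, hcard]
    have h5 := hle x
    obtain ⟨n, rfl⟩ : ∃ n, N = n + 1 := ⟨N - 1, by omega⟩
    have h9 : n + 1 - 1 = n := rfl
    rw [h9] at h4
    nlinarith
  by_cases hn : S.neg = 1
  · refine hE (main S h hf hn ?_)
    intro a b c hb hab hbc
    by_cases ha : a = 1
    · rw [ha]
      exact q1 h c
    · exact (hsame a b ha hb hab c).2 hbc
  · -- `-1 ≠ 1`
    have key : ∀ a : S.G, a ≠ 1 → a ≠ S.neg → S.q S.neg a = S.zero := by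
      intro a ha han
      have hna : S.neg * a ≠ 1 := by
        intro h4
        apply han
        have h5 := congrArg (S.neg * ·) h4
        simp only [← mul_assoc, h.exp2, mul_one, one_mul] at h5
        exact h5
      have h2 := hsame a (S.neg * a) ha hna (h.qs1 a)
      -- `a ∈ V(-a)`
      have h3 : S.q (S.neg * a) a = S.zero := by
        rw [h.qs2]
        exact h.qs1 a
      have h4 : S.q a a = S.zero := (h2 a).2 h3
      have h5 : S.q a (S.neg * a * a) = S.zero := p_mul h (h.qs1 a) h4
      rw [mul_assoc, h.exp2, mul_one] at h5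
      rw [h.qs2]
      exact h5
    have h2 : {b : S.G | S.q S.neg b = S.zero} ⊇ Set.univ \ {S.neg} := by
      rintro b ⟨-, hb⟩
      by_cases hb1 : b = 1
      · rw [hb1]
        exact q_one h _
      · exact key b hb1 hb
    have h3 := Set.ncard_le_ncard h2 (Set.toFinite _)
    rw [hN S.neg hn, Set.ncard_sdiff_singleton_of_mem (Set.mem_univ _), Set.ncard_univ] at h3
    -- `|G| - 1 ≤ N`, `N ^ 2 < |G|`
    have h4 : N = 1 := by
      by_contra hcon
      have h6 : 2 ≤ N := by omega
      have h7 : N * 2 ≤ N ^ 2 := by nlinarith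
      omega
    have h5 : Nat.card S.G ≤ 2 * N := by omega
    exact hE (elem_of_indexTwo h hf fun a => by
      by_cases ha : a = 1
      · subst ha
        intro x y
        left
        exact q1 h x
      · refine indexTwo_of_card h hf a ?_
        rw [hN a ha]
        exact h5)

/-- transitive on the pairs of elements which are not orthogonal -/
theorem part6 (h1 : S_EQO) (S : QData) (h : IsQuat S) (hf : Finite S.G) (Γ : Subgroup (MulAut S.G))
    (ho : ∀ α ∈ Γ, ∀ x y : S.G, S.q x y = S.zero → S.q (α x) (α y) = S.zero)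
    (ht : ∀ a b : S.G, a ≠ 1 → b ≠ 1 → ∃ α ∈ Γ, α a = b)
    (hs : ∀ a c d : S.G, S.q a c ≠ S.zero → S.q a d ≠ S.zero → ∃ α ∈ Γ, α a = a ∧ α c = d) :
    Elem S := by
  obtain ⟨N, hN⟩ := part3 S hf fun a b ha hb => by
    obtain ⟨α, hα, hab⟩ := ht a b ha hb
    exact ⟨α, fun x y hxy => ho α hα x y hxy, hab⟩
  by_cases hne : ∃ a c : S.G, a ≠ 1 ∧ S.q a c ≠ S.zero
  · obtain ⟨a₀, c₀, ha₀, hc₀⟩ := hne
    have hle : ∀ α ∈ Γ, ∀ a c : S.G, {d : S.G | S.q a d = S.zero ∧ S.q c d = S.zero}.ncard ≤
        {d : S.G | S.q (α a) d = S.zero ∧ S.q (α c) d = S.zero}.ncard := by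
      intro α hα a c
      refine Set.ncard_le_ncard_of_injOn α (fun x hx => ?_) (α.injective.injOn) (Set.toFinite _)
      exact ⟨ho α hα a x hx.1, ho α hα c x hx.2⟩
    refine srg h1 S h hf N {d : S.G | S.q a₀ d = S.zero ∧ S.q c₀ d = S.zero}.ncard hN ?_
    intro a c ha hac
    -- move `a` to `a₀`
    obtain ⟨α, hα, haa⟩ := ht a a₀ ha ha₀
    have h2 : S.q a₀ (α c) ≠ S.zero := by
      intro h3
      apply hac
      have h4 := ho α⁻¹ (Γ.inv_mem hα) a₀ (α c) h3
      rw [← haa] at h4
      have e1 : α⁻¹ (α a) = a := by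
        rw [← MulAut.mul_apply, inv_mul_cancel]
        rfl
      have e2 : α⁻¹ (α c) = c := by
        rw [← MulAut.mul_apply, inv_mul_cancel]
        rfl
      rw [e1, e2] at h4
      exact h4
    obtain ⟨β, hβ, hb1, hb2⟩ := hs a₀ (α c) c₀ h2 hc₀
    have hγ := Γ.mul_mem hβ hα
    have e3 : (β * α) a = a₀ := by
      rw [MulAut.mul_apply, haa, hb1]
    have e4 : (β * α) c = c₀ := by
      rw [MulAut.mul_apply, hb2]
    apply le_antisymm
    · have := hle _ hγ a c
      rwa [e3, e4] at this
    · have := hle _ (Γ.inv_mem hγ) a₀ c₀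
      have e5 : (β * α)⁻¹ a₀ = a := by
        rw [← e3, ← MulAut.mul_apply, inv_mul_cancel]
        rfl
      have e6 : (β * α)⁻¹ c₀ = c := by
        rw [← e4, ← MulAut.mul_apply, inv_mul_cancel]
        rfl
      rwa [e5, e6] at this
  · push Not at hne
    refine elem_of_indexTwo h hf fun a x y => ?_
    left
    by_cases ha : a = 1
    · rw [ha]
      exact q1 h x
    · exact hne a x ha

end Pool.Agent.L0h56.HS
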