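import Pool.Agent.H315R3.ETC.Main
import Pool.Agent.H315R3.ETC.Rec

set_option autoImplicit false

/-!
# Board HS (helper56, MP_d26ff6_al): quaternionic structures all of whose value groups have the same order

`V(a) = {b : q(a,b) = 0}` is a subgroup of `G` (Basic.lean: `D h a`), the fibres of `q(a,·)` are its cosets (axiom qs3),
`V(a) ∩ V(c) = V(a) ∩ V(ac)`.  By linkage (qs4) and qs3: `q(a,b) = q(c,d) = t` gives `x` with `q(a,x) = t = q(c,x)`, and then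
`x ∈ V(ac)`.  Hence for `Q_a = {q(a,x)}`: `x ↦ q(a,x)` maps `V(ac)` onto `Q_a ∩ Q_c`, with fibres the cosets of `V(a) ∩ V(c)`.
-/

namespace Pool.Agent.L0h56.HS

open Pool.Agent.H315R3.ETC

/-- EQO (120-150 lines). Let `g = |G|`, `M = g / N` (a natural number) and suppose `M ≥ 3`, `g ≤ N ^ 2`, that is `M ≤ N`.
For `a ≠ c` different from `1` put `k(a,c) = [G : V(a) V(c)] = M |V(a) ∩ V(c)| / N`, a natural number `≥ 1`.
(i) `∑_{c ∈ G} |V(a) ∩ V(c)| = ∑_{y ∈ V(a)} |V(y)| = g + (N - 1) N` (count the pairs `(c, y)` with `y ∈ V(a) ∩ V(c)`), so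
`∑_{c ≠ 1, a} |V(a) ∩ V(c)| = g + N ^ 2 - 3 N` and `∑_{c ≠ 1, a} k(a,c) = M (M + N - 3)`.
(ii) `k(a,c) = 1` iff `V(a) V(c) = G` iff `Q_a = Q_c` (all three sets `V(ac)/(V(a) ∩ V(c))`, `Q_a`, `Q_c` have sizes `N/|V(a) ∩ V(c)|`, `M`,
`M`). If `Q_a = Q_c` then `x ↦ q(a,x)` maps `V(ac)` onto `Q_a`, so `V(ac) V(a) = G`, so `Q_{ac} = Q_a`. Hence
`A_a = {c ≠ 1 : Q_c = Q_a} ∪ {1}` is a subgroup.
(iii) By (i): `M (M + N - 3) ≥ (|A_a| - 2) + 2 (g - |A_a|)`, so `|A_a| ≥ M (N - M + 3) - 2`, and `> √g` as `2 ≤ M ≤ N`. Two such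
subgroups with `A_a ∩ A_c = {1}` are impossible (`|A_a| |A_c| ≤ g`), so `A_a = G` for all `a ≠ 1`.
(iv) Then all `k = 1` and (i) gives `g - 2 = M (M + N - 3)`, with `g = M N`: `(M - 1) (M - 2) = 0`. -/
def S_EQO : Prop := ∀ S : QData, IsQuat S → Finite S.G → ∀ N : ℕ,
  (∀ a : S.G, a ≠ 1 → {b : S.G | S.q a b = S.zero}.ncard = N) → Nat.card S.G ≤ N ^ 2 → Nat.card S.G ≤ 2 * N

/-- DSM (60 lines). `∑_{x ∈ D(t)} |V(a) ∩ V(x)| = N ^ 2` for `a ∈ D(t) = {x : t ∈ Q_x}`, `t ≠ 0`: count the pairs `(x, z)` with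
`q(a,z) = t = q(x,z)`. For fixed `z` with `q(a,z) = t` (a coset of `V(a)`: `N` elements) the `x` are the coset `a V(z)`
(`N` elements, `z ≠ 1` as `t ≠ 0`). For fixed `x ∈ D(t)` the `z` form a coset of `V(a) ∩ V(x)` (not empty by linkage). -/
def S_DSM : Prop := ∀ S : QData, IsQuat S → Finite S.G → ∀ N : ℕ,
  (∀ a : S.G, a ≠ 1 → {b : S.G | S.q a b = S.zero}.ncard = N) → ∀ (t : S.Q) (a b : S.G), t ≠ S.zero → S.q a b = t →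
  ∑ᶠ x ∈ {x : S.G | ∃ y, S.q x y = t}, {d : S.G | S.q a d = S.zero ∧ S.q x d = S.zero}.ncard = N ^ 2

/-- IND (100 lines), from DSM. Suppose there is no such `t`. Fix `a ≠ 1` (`g > N`, so there is one) and put `W(x) = |V(a) ∩ V(x)|`.
Claim: for each `t ≠ 0` in `Q_a` we have `∑_{x ∈ D(t), x ≠ a} (W(x) - 1) ≥ 1`. Otherwise all these `W(x)` are `1` and DSM gives
`|D(t)| = N ^ 2 - N + 1`; then DSM for any other `a' ∈ D(t)` gives `|V(a') ∩ V(x)| = 1` for all `x ∈ D(t)`, `x ≠ a'`, that is `Indep S t`.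
Sum over the `g / N - 1` values `t`: `g / N - 1 ≤ ∑_{x ≠ 1, a} (|Q_a ∩ Q_x| - 1) (W(x) - 1)`, where
`|Q_a ∩ Q_x| = N / W(x)`, so each term is at most `(N / 2 - 1) (W(x) - 1)`, and `∑_{x ≠ 1, a} (W(x) - 1) = (N - 1) (N - 2)` (as in
EQO (i)). So `2 (g - N) ≤ N (N - 1) (N - 2) ^ 2`. -/
def S_IND : Prop := ∀ S : QData, IsQuat S → Finite S.G → ∀ N : ℕ, 2 ≤ N →
  (∀ a : S.G, a ≠ 1 → {b : S.G | S.q a b = S.zero}.ncard = N) →
  N * ((N - 1) * (N - 2) ^ 2) + 2 * N < 2 * Nat.card S.G →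
  ∃ t : S.Q, t ≠ S.zero ∧ (∃ a b : S.G, S.q a b = t) ∧ Indep S t

/-- HUA (60 lines). For `a, b ∈ U` with `a, b ≠ 0`, `a b ≠ 1`: Hua's identity `a - (a⁻¹ + (b⁻¹ - a)⁻¹)⁻¹ = a b a`, so `a² b ∈ U`; with
`b = 1`: `a² ∈ U` (also trivially if `a = 1`). So squaring maps `U` into `U`, and onto as `F` is finite: every `u ∈ U` is `a²` with
`a ∈ U`; so `u b = a² b ∈ U` (if `a b = 1` then `a² b = a`). -/
def S_HUA : Prop := ∀ (F : Type) [Field F] [Finite F] [CharP F 2] (U : AddSubgroup F), (1 : F) ∈ U →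
  (∀ x ∈ U, x⁻¹ ∈ U) → ∀ x ∈ U, ∀ y ∈ U, x * y ∈ U

/-- FLD (100 lines). Fix `a₀ ≠ 1`. For `g ≠ 1` there is a unique `α_g ∈ Γ` with `α_g a₀ = g` (unique: if `α a₀ = a₀` then
`α (β a₀) = β (α a₀) = β a₀` for all `β ∈ Γ`, so `α = 1`). Multiplication on `F = Additive G`: `g * h = α_g h` (`0 * h = 0`), one `a₀`;
commutative as `α_g h = α_g α_h a₀`; `e` is the identity. -/
def S_FLD : Prop := ∀ (G : Type) [CommGroup G] [Finite G], (∀ a : G, a * a = 1) → 2 ≤ Nat.card G →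
  ∀ Γ : Subgroup (MulAut G), (∀ α ∈ Γ, ∀ β ∈ Γ, α * β = β * α) →
  (∀ a b : G, a ≠ 1 → b ≠ 1 → ∃ α ∈ Γ, α a = b) →
  ∃ (F : Type) (_ : Field F) (_ : Finite F) (_ : CharP F 2) (e : G → F), Function.Bijective e ∧ e 1 = 0 ∧
    (∀ a b, e (a * b) = e a + e b) ∧ (∀ α ∈ Γ, ∃ z : F, z ≠ 0 ∧ ∀ a, e (α a) = z * e a) ∧
    ∀ z : F, z ≠ 0 → ∃ α ∈ Γ, ∀ a, e (α a) = z * e a

/-- SNG (60 lines), from HUA and FLD. `U = {x : e⁻¹ (x) ∈ V(e⁻¹ 1)}`; then `V(a) = e⁻¹ (e a · U)` by invariance. `U` is an additive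
subgroup, closed under inverses by symmetry. -/
def S_SNG : Prop := ∀ (G : Type) [CommGroup G] [Finite G], (∀ a : G, a * a = 1) →
  ∀ Γ : Subgroup (MulAut G), (∀ α ∈ Γ, ∀ β ∈ Γ, α * β = β * α) →
  (∀ a b : G, a ≠ 1 → b ≠ 1 → ∃ α ∈ Γ, α a = b) →
  ∀ V : G → Subgroup G, (∀ a b, b ∈ V a → a ∈ V b) → (∀ a, a ∈ V a) →
  (∀ α ∈ Γ, ∀ a b, b ∈ V a → α b ∈ V (α a)) →
  ∀ a b c, b ≠ 1 → b ∈ V a → c ∈ V b → c ∈ V a

end Pool.Agent.L0h56.HS
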