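import Pool.Agent.L0h56.HS.Stm

set_option autoImplicit false

/-!
# Board HS (helper56, MP_d26ff6_al), part 2: the upper bound `2 |G| ≤ N ^ 3`
-/

namespace Pool.Agent.L0h56.HS

open Pool.Agent.H315R3.ETC

/-- PFI. For `t ≠ 0`, `D = D(t) = {x : t ∈ Q_x}`, `d = |D|`: `d = N ^ 2 - N + 1 - e` with `e ≥ 0` and `d (2 N - 2 - e) + 2 ≤ N ^ 3`.
The set `U` of the `y` orthogonal to some element of `D` is a subgroup (linkage, twice); for `m(y) = |V(y) ∩ D|` we have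
`∑ m(y) = d N`, `∑ m(y) ^ 2 = d N ^ 2` (DSM), `m(1) = d`; `2 [m ≥ 1] ≥ 3 m - m ^ 2`; `|U|` is a power of two less than `N ^ 3`. -/
def S_PFI : Prop := ∀ S : QData, IsQuat S → Finite S.G → ∀ N : ℕ, 2 ≤ N →
  (∀ a : S.G, a ≠ 1 → {b : S.G | S.q a b = S.zero}.ncard = N) → ∀ (t : S.Q) (a b : S.G), t ≠ S.zero → S.q a b = t →
  ∃ e : ℕ, {x : S.G | ∃ y, S.q x y = t}.ncard + e + N = N ^ 2 + 1 ∧
    2 * {x : S.G | ∃ y, S.q x y = t}.ncard * (N - 1) + 2 ≤ N ^ 3 + {x : S.G | ∃ y, S.q x y = t}.ncard * e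

/-- AVG. As IND: for `a ≠ 1` and `b ∉ V(a)` the sum of `|V(a) ∩ V(x)| - 1` over `x ∈ D(q(a,b))`, `x ≠ a`, is
`N ^ 2 - N - (d - 1) ≥ e` by DSM (instead of `≥ 1` in IND). So `(|G| - N) e` is at most the double sum, which is at most
`N (N - 2) (N - 1) (N - 2) / 2`. -/
def S_AVG : Prop := ∀ S : QData, IsQuat S → Finite S.G → ∀ N : ℕ, 2 ≤ N →
  (∀ a : S.G, a ≠ 1 → {b : S.G | S.q a b = S.zero}.ncard = N) → (∃ a : S.G, a ≠ 1) → ∀ e : ℕ,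
  (∀ (t : S.Q) (a b : S.G), t ≠ S.zero → S.q a b = t → {x : S.G | ∃ y, S.q x y = t}.ncard + e + N ≤ N ^ 2 + 1) →
  2 * Nat.card S.G * e ≤ N * ((N - 1) * (N - 2) ^ 2) + 2 * N * e

end Pool.Agent.L0h56.HS
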